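import Mathlib

/-!
# Colourings of trees and of joins of an edgeless graph with a tree

`tree_colorings`: a tree on `M` vertices has `r (r - 1) ^ (M - 1)` proper colourings with `r`
colours.  `join_colorings`: the number of proper colourings of the join of an edgeless graph and a
tree does not depend on the tree.  `conv_left`, `conv_right`: such joins have as many colourings as
the complete tripartite graph `K_{1,n,m}`.
-/

set_option autoImplicit false

open SimpleGraph

namespace K3h21.Conv

lemma tree_colorings_aux (K : Type) [Finite K] : ∀ (M : ℕ) (W : Type) [Fintype W]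
    (T : SimpleGraph W), Fintype.card W = M + 1 → T.IsTree →
      Nat.card (T.Coloring K) = Nat.card K * (Nat.card K - 1) ^ M := by
  classical
  have := Fintype.ofFinite K
  intro M
  induction M with
  | zero =>
    intro W _ T hW hT
    have hsub : Subsingleton W := by
      rw [← Fintype.card_le_one_iff_subsingleton, hW]
    obtain ⟨w⟩ := hT.connected.nonempty
    have e : T.Coloring K ≃ K :=
      { toFun := fun g => g w
        invFun := fun c => Coloring.mk (fun _ => c) fun {u v} h => absurd (Subsingleton.elim u v) h.ne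
        left_inv := fun g => by
          ext v
          rw [Subsingleton.elim v w]
          rfl
        right_inv := fun c => rfl }
    rw [Nat.card_congr e, pow_zero, mul_one]
  | succ M ih =>
    intro W _ T hW hT
    have hnt : Nontrivial W := by
      rw [← Fintype.one_lt_card_iff_nontrivial, hW]; omega
    obtain ⟨v, hv⟩ := hT.exists_vert_degree_one_of_nontrivial
    have hconn := hT.connected.induce_compl_singleton_of_degree_eq_one hv
    have hT' : (T.induce ({v}ᶜ : Set W)).IsTree := ⟨hconn, hT.isAcyclic.induce _⟩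
    obtain ⟨u, hvu, hu⟩ := degree_eq_one_iff_existsUnique_adj.mp hv
    have huv : u ∈ ({v}ᶜ : Set W) := by
      rw [Set.mem_compl_iff, Set.mem_singleton_iff]; exact hvu.ne.symm
    have hcard : Fintype.card ↥({v}ᶜ : Set W) = M + 1 := by
      rw [Fintype.card_compl_set, hW]
      simp
    have h1 := ih ↥({v}ᶜ : Set W) (T.induce ({v}ᶜ : Set W)) hcard hT'
    have e : T.Coloring K ≃ Σ g : (T.induce ({v}ᶜ : Set W)).Coloring K,
        {c : K // c ≠ g ⟨u, huv⟩} :=
      { toFun := fun g => ⟨Coloring.mk (fun w => g w.1) fun {a b} h => g.valid h,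
          ⟨g v, g.valid hvu⟩⟩
        invFun := fun p => Coloring.mk
          (fun w => if h : w = v then p.2.1 else p.1 ⟨w, h⟩) (by
            intro a b hab
            by_cases ha : a = v
            · subst ha
              have hb : b ≠ a := hab.ne.symm
              have hbu : b = u := hu b hab
              subst hbu
              rw [dif_pos rfl, dif_neg hb]
              exact p.2.2
            · by_cases hb : b = v
              · subst hb
                have hau : a = u := hu a hab.symm
                subst hau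
                rw [dif_pos rfl, dif_neg ha]
                exact fun h => p.2.2 h.symm
              · rw [dif_neg ha, dif_neg hb]
                exact p.1.valid (show (T.induce ({v}ᶜ : Set W)).Adj ⟨a, ha⟩ ⟨b, hb⟩ from hab))
        left_inv := fun g => by
          ext w
          by_cases h : w = v
          · subst h
            simp [Coloring.mk]
          · simp [Coloring.mk, h]
        right_inv := fun p => by
          obtain ⟨g, c, hc⟩ := p
          have h1 : (Coloring.mk (fun w : ↥({v}ᶜ : Set W) =>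
              (if h : (w : W) = v then c else g ⟨w, h⟩)) (by
                intro a b hab
                have ha : (a : W) ≠ v := a.2
                have hb : (b : W) ≠ v := b.2
                rw [dif_neg ha, dif_neg hb]
                exact g.valid hab) : (T.induce ({v}ᶜ : Set W)).Coloring K) = g := by
            ext w
            have hw : (w : W) ≠ v := w.2
            simp [Coloring.mk, hw]
          refine Sigma.ext ?_ ?_
          · exact h1
          · refine (Subtype.heq_iff_coe_eq ?_).2 ?_
            · intro x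
              simp only [Coloring.mk]
              have hu' : (u : W) ≠ v := huv
              simp [hu']
            · simp [Coloring.mk] }
    rw [Nat.card_congr e, Nat.card_sigma]
    have h2 : ∀ g : (T.induce ({v}ᶜ : Set W)).Coloring K,
        Nat.card {c : K // c ≠ g ⟨u, huv⟩} = Nat.card K - 1 := by
      intro g
      rw [Nat.card_eq_fintype_card, Nat.card_eq_fintype_card, Fintype.card_subtype_compl,
        Fintype.card_subtype_eq]
    rw [Finset.sum_congr rfl fun g _ => h2 g, Finset.sum_const, smul_eq_mul, Finset.card_univ,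
      ← Nat.card_eq_fintype_card, h1, pow_succ]
    ring

/-- a tree on `M + 1` vertices has `r (r - 1) ^ M` proper colourings with `r` colours -/
theorem tree_colorings {W : Type} [Fintype W] {T : SimpleGraph W} (hT : T.IsTree) {M : ℕ}
    (hM : Fintype.card W = M + 1) (K : Type) [Finite K] :
    Nat.card (T.Coloring K) = Nat.card K * (Nat.card K - 1) ^ M :=
  tree_colorings_aux K M W T hM hT

/-- the join of an edgeless graph with `T`, in the form used by the frozen statement -/
def jg (a : Type) {b : Type} (T : SimpleGraph b) : SimpleGraph (a ⊕ b) :=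
  SimpleGraph.fromRel (fun u v : a ⊕ b =>
    (∃ x y, u = Sum.inr x ∧ v = Sum.inr y ∧ T.Adj x y) ∨ ∃ x y, u = Sum.inl x ∧ v = Sum.inr y)

section join

variable {a b : Type} {T : SimpleGraph b}

@[simp] lemma jg_ll (x y : a) : (jg a T).Adj (Sum.inl x) (Sum.inl y) ↔ False := by
  simp [jg]

@[simp] lemma jg_lr (x : a) (y : b) : (jg a T).Adj (Sum.inl x) (Sum.inr y) ↔ True := by
  simp [jg]

@[simp] lemma jg_rl (x : b) (y : a) : (jg a T).Adj (Sum.inr x) (Sum.inl y) ↔ True := by
  simp [jg]

@[simp] lemma jg_rr (x y : b) : (jg a T).Adj (Sum.inr x) (Sum.inr y) ↔ T.Adj x y := by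
  simp only [jg, fromRel_adj, Sum.inr.injEq, ne_eq, reduceCtorEq, false_and, exists_false,
    or_false, exists_and_left, exists_eq_left', T.adj_comm y x, or_self]
  constructor
  · rintro ⟨-, h⟩
    simpa [T.adj_comm] using h
  · intro h
    exact ⟨h.ne, by simpa [T.adj_comm] using h⟩

/-- colourings of the join -/
def joinEquiv (K : Type) : (jg a T).Coloring K ≃
    Σ f : a → K, T.Coloring {c : K // c ∉ Set.range f} where
  toFun g := ⟨fun x => g (Sum.inl x), Coloring.mk
    (fun y => ⟨g (Sum.inr y), by
      rintro ⟨x, hx⟩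
      exact g.valid ((jg_lr x y).2 trivial) hx⟩)
    (fun {u v} h h' => g.valid ((jg_rr u v).2 h) (congrArg Subtype.val h'))⟩
  invFun p := Coloring.mk (fun u => Sum.elim p.1 (fun y => (p.2 y).1) u) (by
    intro u v h
    rcases u with x | x <;> rcases v with y | y
    · exact absurd h (by simp)
    · intro h'
      exact (p.2 y).2 ⟨x, h'⟩
    · intro h'
      exact (p.2 x).2 ⟨y, h'.symm⟩
    · intro h'
      exact p.2.valid ((jg_rr x y).1 h) (Subtype.ext h'))
  left_inv g := by
    ext u
    rcases u with x | x <;> rfl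
  right_inv p := by
    obtain ⟨f, g⟩ := p
    rfl

/-- the number of colourings of the join of an edgeless graph with a tree -/
theorem join_colorings [Fintype a] [DecidableEq a] [Fintype b] (hT : T.IsTree) {M : ℕ}
    (hM : Fintype.card b = M + 1) (q : ℕ) : Nat.card ((jg a T).Coloring (Fin q))
      = ∑ f : a → Fin q, Nat.card {c : Fin q // c ∉ Set.range f}
          * (Nat.card {c : Fin q // c ∉ Set.range f} - 1) ^ M := by
  rw [Nat.card_congr (joinEquiv (Fin q)), Nat.card_sigma]
  refine Finset.sum_congr rfl fun f _ => ?_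
  exact tree_colorings hT hM _

end join

/-- isomorphic graphs have the same number of colourings -/
lemma card_coloring_iso {V W : Type} {G : SimpleGraph V} {H : SimpleGraph W} (e : G ≃g H)
    (K : Type) : Nat.card (G.Coloring K) = Nat.card (H.Coloring K) := by
  refine Nat.card_congr
    { toFun := fun g => Coloring.mk (fun w => g (e.symm w)) fun {u v} h =>
        g.valid (e.symm.map_adj_iff.2 h)
      invFun := fun g => Coloring.mk (fun v => g (e v)) fun {u v} h =>
        g.valid (e.map_adj_iff.2 h)
      left_inv := fun g => by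
        ext v
        simp [Coloring.mk]
      right_inv := fun g => by
        ext v
        simp [Coloring.mk] }

/-- the complete tripartite graph of the frozen statement -/
abbrev ktri (n m : ℕ) : SimpleGraph (Σ i : Fin 3, Fin ((![1, n, m] : Fin 3 → ℕ) i)) :=
  completeMultipartiteGraph (fun i : Fin 3 => Fin ((![1, n, m] : Fin 3 → ℕ) i))

/-- the vertices of the complete tripartite graph -/
def triL (n m : ℕ) : (Σ i : Fin 3, Fin ((![1, n, m] : Fin 3 → ℕ) i)) ≃ Fin n ⊕ Fin (m + 1) where
  toFun p := match p with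
    | ⟨0, _⟩ => Sum.inr 0
    | ⟨1, j⟩ => Sum.inl j
    | ⟨2, j⟩ => Sum.inr (Fin.succ j)
  invFun s := Sum.elim (fun j => ⟨1, j⟩)
    (fun j => Fin.cases (motive := fun _ => Σ i : Fin 3, Fin ((![1, n, m] : Fin 3 → ℕ) i))
      ⟨0, (0 : Fin 1)⟩ (fun j => ⟨2, j⟩) j) s
  left_inv p := by
    match p with
    | ⟨0, j⟩ =>
      have : j = (0 : Fin 1) := Subsingleton.elim (α := Fin 1) _ _
      subst this
      rfl
    | ⟨1, j⟩ => rfl
    | ⟨2, j⟩ => rfl
  right_inv s := by
    rcases s with j | j
    · rfl
    · induction j using Fin.cases with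
      | zero => rfl
      | succ j => rfl

lemma triL_adj (n m : ℕ) (u v : Σ i : Fin 3, Fin ((![1, n, m] : Fin 3 → ℕ) i)) :
    (jg (Fin n) (starGraph (0 : Fin (m + 1)))).Adj (triL n m u) (triL n m v)
      ↔ (ktri n m).Adj u v := by
  have key : (ktri n m).Adj u v ↔ u.1 ≠ v.1 := Iff.rfl
  rw [key]
  have hss : ∀ {M : ℕ} (i j : Fin M), ¬ (starGraph (0 : Fin (M + 1))).Adj i.succ j.succ := by
    intro M i j h
    rcases (starGraph_adj.1 h).2 with h | h
    · exact Fin.succ_ne_zero _ h
    · exact Fin.succ_ne_zero _ h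
  match u, v with
  | ⟨0, _⟩, ⟨0, _⟩ =>
    exact iff_of_false (fun h => (jg (Fin n) (starGraph (0 : Fin (m + 1)))).loopless.irrefl _ h)
      (fun h => h rfl)
  | ⟨0, _⟩, ⟨1, j⟩ =>
    exact iff_of_true ((jg_rl (T := starGraph (0 : Fin (m + 1))) 0 (show Fin n from j)).2 trivial)
      (show (0 : Fin 3) ≠ 1 by decide)
  | ⟨0, _⟩, ⟨2, j⟩ =>
    exact iff_of_true ((jg_rr (a := Fin n) 0 (Fin.succ (show Fin m from j))).2
      (starGraph_center_adj (Fin.succ_ne_zero _).symm)) (show (0 : Fin 3) ≠ 2 by decide)
  | ⟨1, j⟩, ⟨0, _⟩ =>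
    exact iff_of_true ((jg_lr (T := starGraph (0 : Fin (m + 1))) (show Fin n from j) 0).2 trivial)
      (show (1 : Fin 3) ≠ 0 by decide)
  | ⟨1, i⟩, ⟨1, j⟩ =>
    exact iff_of_false (jg_ll (T := starGraph (0 : Fin (m + 1))) (show Fin n from i) (show Fin n from j)).1
      (fun h => h rfl)
  | ⟨1, i⟩, ⟨2, j⟩ =>
    exact iff_of_true ((jg_lr (T := starGraph (0 : Fin (m + 1))) (show Fin n from i)
      (Fin.succ (show Fin m from j))).2 trivial) (show (1 : Fin 3) ≠ 2 by decide)
  | ⟨2, j⟩, ⟨0, _⟩ =>
    exact iff_of_true ((jg_rr (a := Fin n) (Fin.succ (show Fin m from j)) 0).2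
      (starGraph_center_adj' (Fin.succ_ne_zero _).symm)) (show (2 : Fin 3) ≠ 0 by decide)
  | ⟨2, i⟩, ⟨1, j⟩ =>
    exact iff_of_true ((jg_rl (T := starGraph (0 : Fin (m + 1)))
      (Fin.succ (show Fin m from i)) (show Fin n from j)).2 trivial)
      (show (2 : Fin 3) ≠ 1 by decide)
  | ⟨2, i⟩, ⟨2, j⟩ =>
    exact iff_of_false (fun h => hss (show Fin m from i) (show Fin m from j)
      ((jg_rr (a := Fin n) _ _).1 h)) (fun h => h rfl)

/-- `K_{1,n,m}` is the join of `n` isolated vertices and a star on `m + 1` vertices -/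
def isoL (n m : ℕ) : ktri n m ≃g jg (Fin n) (starGraph (0 : Fin (m + 1))) where
  toEquiv := triL n m
  map_rel_iff' := fun {u v} => triL_adj n m u v

/-- the vertices of the complete tripartite graph, second form -/
def triR (n m : ℕ) : (Σ i : Fin 3, Fin ((![1, n, m] : Fin 3 → ℕ) i)) ≃ Fin m ⊕ Fin (n + 1) where
  toFun p := match p with
    | ⟨0, _⟩ => Sum.inr 0
    | ⟨1, j⟩ => Sum.inr (Fin.succ j)
    | ⟨2, j⟩ => Sum.inl j
  invFun s := Sum.elim (fun j => ⟨2, j⟩)
    (fun j => Fin.cases (motive := fun _ => Σ i : Fin 3, Fin ((![1, n, m] : Fin 3 → ℕ) i))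
      ⟨0, (0 : Fin 1)⟩ (fun j => ⟨1, j⟩) j) s
  left_inv p := by
    match p with
    | ⟨0, j⟩ =>
      have : j = (0 : Fin 1) := Subsingleton.elim (α := Fin 1) _ _
      subst this
      rfl
    | ⟨1, j⟩ => rfl
    | ⟨2, j⟩ => rfl
  right_inv s := by
    rcases s with j | j
    · rfl
    · induction j using Fin.cases with
      | zero => rfl
      | succ j => rfl

lemma triR_adj (n m : ℕ) (u v : Σ i : Fin 3, Fin ((![1, n, m] : Fin 3 → ℕ) i)) :
    (jg (Fin m) (starGraph (0 : Fin (n + 1)))).Adj (triR n m u) (triR n m v)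
      ↔ (ktri n m).Adj u v := by
  have key : (ktri n m).Adj u v ↔ u.1 ≠ v.1 := Iff.rfl
  rw [key]
  have hss : ∀ {M : ℕ} (i j : Fin M), ¬ (starGraph (0 : Fin (M + 1))).Adj i.succ j.succ := by
    intro M i j h
    rcases (starGraph_adj.1 h).2 with h | h
    · exact Fin.succ_ne_zero _ h
    · exact Fin.succ_ne_zero _ h
  match u, v with
  | ⟨0, _⟩, ⟨0, _⟩ =>
    exact iff_of_false (fun h => (jg (Fin m) (starGraph (0 : Fin (n + 1)))).loopless.irrefl _ h)
      (fun h => h rfl)
  | ⟨0, _⟩, ⟨2, j⟩ =>
    exact iff_of_true ((jg_rl (T := starGraph (0 : Fin (n + 1))) 0 (show Fin m from j)).2 trivial)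
      (show (0 : Fin 3) ≠ 2 by decide)
  | ⟨0, _⟩, ⟨1, j⟩ =>
    exact iff_of_true ((jg_rr (a := Fin m) 0 (Fin.succ (show Fin n from j))).2
      (starGraph_center_adj (Fin.succ_ne_zero _).symm)) (show (0 : Fin 3) ≠ 1 by decide)
  | ⟨2, j⟩, ⟨0, _⟩ =>
    exact iff_of_true ((jg_lr (T := starGraph (0 : Fin (n + 1))) (show Fin m from j) 0).2 trivial)
      (show (2 : Fin 3) ≠ 0 by decide)
  | ⟨2, i⟩, ⟨2, j⟩ =>
    exact iff_of_false (jg_ll (T := starGraph (0 : Fin (n + 1))) (show Fin m from i) (show Fin m from j)).1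
      (fun h => h rfl)
  | ⟨2, i⟩, ⟨1, j⟩ =>
    exact iff_of_true ((jg_lr (T := starGraph (0 : Fin (n + 1))) (show Fin m from i)
      (Fin.succ (show Fin n from j))).2 trivial) (show (2 : Fin 3) ≠ 1 by decide)
  | ⟨1, j⟩, ⟨0, _⟩ =>
    exact iff_of_true ((jg_rr (a := Fin m) (Fin.succ (show Fin n from j)) 0).2
      (starGraph_center_adj' (Fin.succ_ne_zero _).symm)) (show (1 : Fin 3) ≠ 0 by decide)
  | ⟨1, i⟩, ⟨2, j⟩ =>
    exact iff_of_true ((jg_rl (T := starGraph (0 : Fin (n + 1)))
      (Fin.succ (show Fin n from i)) (show Fin m from j)).2 trivial)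
      (show (1 : Fin 3) ≠ 2 by decide)
  | ⟨1, i⟩, ⟨1, j⟩ =>
    exact iff_of_false (fun h => hss (show Fin n from i) (show Fin n from j)
      ((jg_rr (a := Fin m) _ _).1 h)) (fun h => h rfl)

/-- `K_{1,n,m}` is the join of `m` isolated vertices and a star on `n + 1` vertices -/
def isoR (n m : ℕ) : ktri n m ≃g jg (Fin m) (starGraph (0 : Fin (n + 1))) where
  toEquiv := triR n m
  map_rel_iff' := fun {u v} => triR_adj n m u v

/-- the join of `n` isolated vertices and a tree on `m + 1` vertices has as many colourings as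
`K_{1,n,m}` -/
theorem conv_left (n m : ℕ) {V : Type} {G : SimpleGraph V} {T : SimpleGraph (Fin (m + 1))}
    (hT : T.IsTree) (h : Nonempty (G ≃g jg (Fin n) T)) (q : ℕ) :
    Nat.card (G.Coloring (Fin q)) = Nat.card ((ktri n m).Coloring (Fin q)) := by
  obtain ⟨e⟩ := h
  rw [card_coloring_iso e, card_coloring_iso (isoL n m),
    join_colorings hT (Fintype.card_fin _) q,
    join_colorings (isTree_starGraph _) (Fintype.card_fin _) q]

/-- the join of `m` isolated vertices and a tree on `n + 1` vertices has as many colourings as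
`K_{1,n,m}` -/
theorem conv_right (n m : ℕ) {V : Type} {G : SimpleGraph V} {T : SimpleGraph (Fin (n + 1))}
    (hT : T.IsTree) (h : Nonempty (G ≃g jg (Fin m) T)) (q : ℕ) :
    Nat.card (G.Coloring (Fin q)) = Nat.card ((ktri n m).Coloring (Fin q)) := by
  obtain ⟨e⟩ := h
  rw [card_coloring_iso e, card_coloring_iso (isoR n m),
    join_colorings hT (Fintype.card_fin _) q,
    join_colorings (isTree_starGraph _) (Fintype.card_fin _) q]

/-- the converse direction of the frozen statement S09135 -/
theorem conv_main (n k : ℕ) (V : Type) (G : SimpleGraph V)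
    (h : (∃ T : SimpleGraph (Fin (n + k + 1)), T.IsTree ∧
            Nonempty (G ≃g SimpleGraph.fromRel
              (fun a b : Fin n ⊕ Fin (n + k + 1) =>
                (∃ x y, a = Sum.inr x ∧ b = Sum.inr y ∧ T.Adj x y) ∨
                ∃ x y, a = Sum.inl x ∧ b = Sum.inr y))) ∨
         (∃ T : SimpleGraph (Fin (n + 1)), T.IsTree ∧
            Nonempty (G ≃g SimpleGraph.fromRel
              (fun a b : Fin (n + k) ⊕ Fin (n + 1) =>
                (∃ x y, a = Sum.inr x ∧ b = Sum.inr y ∧ T.Adj x y) ∨
                ∃ x y, a = Sum.inl x ∧ b = Sum.inr y)))) (q : ℕ) :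
    Nat.card (G.Coloring (Fin q)) =
      Nat.card ((completeMultipartiteGraph
        (fun i : Fin 3 => Fin ((![1, n, n + k] : Fin 3 → ℕ) i))).Coloring (Fin q)) := by
  rcases h with ⟨T, hT, h⟩ | ⟨T, hT, h⟩
  · exact conv_left n (n + k) hT h q
  · exact conv_right n (n + k) hT h q

end K3h21.Conv
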