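import Pool.Agent.K3h21.ChromRec

/-!
# The recursions for the pattern counts under deletion and contraction
-/

set_option autoImplicit false
set_option linter.unusedSectionVars false
set_option linter.unusedSimpArgs false

open Finset

namespace K3h21.Chrom

variable {V : Type*} [Fintype V] [DecidableEq V]

/-- the number of edges -/
noncomputable def n2 (G : SimpleGraph V) : ℤ := ∑ S ∈ powersetCard 2 (univ : Finset V), cl G S
/-- the number of triangles -/
noncomputable def n3 (G : SimpleGraph V) : ℤ := ∑ S ∈ powersetCard 3 (univ : Finset V), cl G S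
/-- the number of complete subgraphs on four vertices -/
noncomputable def n4 (G : SimpleGraph V) : ℤ := ∑ S ∈ powersetCard 4 (univ : Finset V), cl G S
/-- the number of induced 4-cycles -/
noncomputable def i4 (G : SimpleGraph V) : ℤ := ∑ S ∈ powersetCard 4 (univ : Finset V), cyc G S
/-- the combination of five-vertex patterns -/
noncomputable def f5 (G : SimpleGraph V) : ℤ := ∑ S ∈ powersetCard 5 (univ : Finset V), x4 G S

lemma cl_nonneg (G : SimpleGraph V) (S : Finset V) : 0 ≤ cl G S := by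
  unfold cl; split_ifs <;> norm_num

lemma sum_pc_one (s : Finset V) (F : Finset V → ℤ) :
    ∑ S ∈ powersetCard 1 s, F S = ∑ u ∈ s, F {u} := by
  rw [powersetCard_one, sum_map]
  rfl

variable (G : SimpleGraph V) (x y : V)

/-- the common neighbours -/
noncomputable def cm : Finset V := (oth x y).filter fun u => (ad G x u && ad G y u) = true

/-- indicator of a common neighbour -/
noncomputable def mm (u : V) : ℤ := ((ad G x u && ad G y u).toNat : ℤ)

/-- the change of the number of triangles on a pair -/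
noncomputable def tau (P : Finset V) : ℤ :=
  cl (con G x y) (insert x P) - cl G (insert x P) - cl G (insert y P)

/-- the total change -/
noncomputable def tt : ℤ := ∑ P ∈ powersetCard 2 (oth x y), tau G x y P

variable {G x y}

lemma tau_pair (hxy : x ≠ y) {u v : V} (hu : u ∈ oth x y) (hv : v ∈ oth x y) (huv : u ≠ v) :
    tau G x y {u, v} = btau (ad G x u) (ad G x v) (ad G y u) (ad G y v) (ad G u v) := by
  obtain ⟨h1, h2⟩ := mem_oth.1 hu
  obtain ⟨h3, h4⟩ := mem_oth.1 hv
  unfold tau btau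
  rw [cl_three _ h1.symm h3.symm huv, cl_three _ h1.symm h3.symm huv,
    cl_three _ h2.symm h4.symm huv, ad_con_x G hxy h1 h2, ad_con_x G hxy h3 h4,
    ad_con_o G h1 h2 h3 h4]

lemma sum_mm : ∑ u ∈ oth x y, mm G x y u = ((cm G x y).card : ℤ) := by
  unfold mm cm
  rw [card_filter, Nat.cast_sum]
  refine sum_congr rfl fun u _ => ?_
  cases ad G x u <;> cases ad G y u <;> rfl

lemma sum_prod_mm (j : ℕ) :
    ∑ S ∈ powersetCard j (oth x y), ∏ u ∈ S, mm G x y u = (((cm G x y).card.choose j : ℕ) : ℤ) := by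
  rw [← card_powersetCard, card_eq_sum_ones, Nat.cast_sum]
  have hsub : powersetCard j (cm G x y) ⊆ powersetCard j (oth x y) :=
    powersetCard_mono (filter_subset _ _)
  rw [← sum_subset hsub]
  · refine sum_congr rfl fun S hS => ?_
    rw [prod_eq_one, Nat.cast_one]
    intro u hu
    have := ((mem_powersetCard.1 hS).1 hu)
    have := (mem_filter.1 this).2
    simp [mm, this]
  · intro S hS hS'
    have h1 : ¬ S ⊆ cm G x y := fun h => hS' (mem_powersetCard.2 ⟨h, (mem_powersetCard.1 hS).2⟩)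
    obtain ⟨u, hu, hu'⟩ := not_subset.1 h1
    refine prod_eq_zero hu ?_
    have : ¬ ((ad G x u && ad G y u) = true) := fun h =>
      hu' (mem_filter.2 ⟨(mem_powersetCard.1 hS).1 hu, h⟩)
    rw [Bool.not_eq_true] at this
    simp [mm, this]

lemma n2_del (h : G.Adj x y) : n2 G - n2 (del G x y) = 1 := by
  have hxy := h.ne
  have := sub_del G (F := cl) (fun _ _ _ h => cl_congr h) hxy 0
  rw [n2, n2, this, powersetCard_zero, sum_singleton, insert_empty_eq, cl_two _ hxy, cl_two _ hxy,
    ad_del_xy, ad_true.2 h]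
  rfl

lemma n2_con (h : G.Adj x y) : n2 G - n2 (con G x y) = (cm G x y).card + 1 := by
  have hxy := h.ne
  have := sub_con G (F := cl) (fun _ _ _ h => cl_congr h) 0
    (fun _ _ _ h1 h2 h3 => cl_isolated h1 h2 (by omega)) hxy
  rw [n2, n2, this, powersetCard_zero, sum_singleton, insert_empty_eq, cl_two _ hxy,
    ad_true.2 h, sum_pc_one, ← sum_mm]
  congr 1
  refine sum_congr rfl fun u hu => ?_
  obtain ⟨h1, h2⟩ := mem_oth.1 hu
  rw [cl_two _ h1.symm, cl_two _ h2.symm, cl_two _ h1.symm, ad_con_x G hxy h1 h2]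
  unfold mm
  generalize ad G x u = a
  generalize ad G y u = b
  revert a b
  decide

lemma n3_del (h : G.Adj x y) : n3 G - n3 (del G x y) = (cm G x y).card := by
  have hxy := h.ne
  have := sub_del G (F := cl) (fun _ _ _ h => cl_congr h) hxy 1
  rw [n3, n3, this, sum_pc_one, ← sum_mm]
  refine sum_congr rfl fun u hu => ?_
  obtain ⟨h1, h2⟩ := mem_oth.1 hu
  rw [cl_three _ hxy h1.symm h2.symm, cl_three _ hxy h1.symm h2.symm,
    ad_del_xy, ad_true.2 h, ad_del_right G _ h1 h2, ad_del_right G _ h1 h2]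
  unfold mm
  generalize ad G x u = a
  generalize ad G y u = b
  revert a b
  decide

lemma n3_con (h : G.Adj x y) : n3 G - n3 (con G x y) = (cm G x y).card - tt G x y := by
  have hxy := h.ne
  have := sub_con G (F := cl) (fun _ _ _ h => cl_congr h) 1
    (fun _ _ _ h1 h2 h3 => cl_isolated h1 h2 (by omega)) hxy
  rw [n3, n3, this, sum_pc_one, ← sum_mm, sub_eq_add_neg, add_comm]
  congr 1
  · refine sum_congr rfl fun u hu => ?_
    obtain ⟨h1, h2⟩ := mem_oth.1 hu
    rw [cl_three _ hxy h1.symm h2.symm, ad_true.2 h]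
    unfold mm
    generalize ad G x u = a
    generalize ad G y u = b
    revert a b
    decide
  · unfold tt
    rw [← sum_neg_distrib]
    refine sum_congr rfl fun P _ => ?_
    unfold tau
    ring

/-- the number of complete subgraphs on four vertices that contain `x` and `y` -/
noncomputable def kap (G : SimpleGraph V) (x y : V) : ℤ :=
  ∑ P ∈ powersetCard 2 (oth x y), cl G (insert x (insert y P))

lemma pair_cases {P : Finset V} (hP : P ∈ powersetCard 2 (oth x y)) :
    ∃ u v, u ∈ oth x y ∧ v ∈ oth x y ∧ u ≠ v ∧ P = {u, v} := by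
  obtain ⟨h1, h2⟩ := mem_powersetCard.1 hP
  obtain ⟨u, v, huv, rfl⟩ := card_eq_two.1 h2
  exact ⟨u, v, h1 (by simp), h1 (by simp), huv, rfl⟩

lemma triple_cases {P : Finset V} (hP : P ∈ powersetCard 3 (oth x y)) :
    ∃ u v w, u ∈ oth x y ∧ v ∈ oth x y ∧ w ∈ oth x y ∧ u ≠ v ∧ u ≠ w ∧ v ≠ w ∧ P = {u, v, w} := by
  obtain ⟨h1, h2⟩ := mem_powersetCard.1 hP
  obtain ⟨u, v, w, huv, huw, hvw, rfl⟩ := card_eq_three.1 h2
  exact ⟨u, v, w, h1 (by simp), h1 (by simp), h1 (by simp), huv, huw, hvw, rfl⟩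

lemma n4_del (h : G.Adj x y) : n4 G - n4 (del G x y) = kap G x y := by
  have hxy := h.ne
  have := sub_del G (F := cl) (fun _ _ _ h => cl_congr h) hxy 2
  rw [n4, n4, this, kap]
  refine sum_congr rfl fun P hP => ?_
  obtain ⟨u, v, hu, hv, huv, rfl⟩ := pair_cases hP
  obtain ⟨h1, h2⟩ := mem_oth.1 hu
  obtain ⟨h3, h4⟩ := mem_oth.1 hv
  have : cl (del G x y) (insert x (insert y {u, v})) = 0 := by
    rw [cl_four _ hxy h1.symm h3.symm h2.symm h4.symm huv, ad_del_xy]
    generalize ad (del G x y) x u = a1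
    generalize ad (del G x y) x v = a2
    generalize ad (del G x y) y u = a3
    generalize ad (del G x y) y v = a4
    generalize ad (del G x y) u v = a5
    revert a1 a2 a3 a4 a5
    decide
  rw [this, sub_zero]

lemma i4_del (h : G.Adj x y) : i4 G - i4 (del G x y)
    = tt G x y + 2 * kap G x y - (((cm G x y).card.choose 2 : ℕ) : ℤ) := by
  have hxy := h.ne
  have := sub_del G (F := cyc) (fun _ _ _ h => cyc_congr h) hxy 2
  rw [i4, i4, this, kap, tt, ← sum_prod_mm, mul_sum, ← sum_add_distrib, ← sum_sub_distrib]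
  refine sum_congr rfl fun P hP => ?_
  obtain ⟨u, v, hu, hv, huv, rfl⟩ := pair_cases hP
  obtain ⟨h1, h2⟩ := mem_oth.1 hu
  obtain ⟨h3, h4⟩ := mem_oth.1 hv
  rw [cyc_four _ hxy h1.symm h3.symm h2.symm h4.symm huv,
    cyc_four _ hxy h1.symm h3.symm h2.symm h4.symm huv, ad_del_xy, ad_true.2 h,
    ad_del_right G _ h1 h2, ad_del_right G _ h1 h2, ad_del_right G _ h3 h4,
    ad_del_right G _ h3 h4, ad_del_right G _ h3 h4, check_pair, tau_pair hxy hu hv huv,
    cl_four _ hxy h1.symm h3.symm h2.symm h4.symm huv, ad_true.2 h, prod_pair huv]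
  unfold mm
  congr 1
  generalize ad G x u = a1
  generalize ad G x v = a2
  generalize ad G y u = a3
  generalize ad G y v = a4
  revert a1 a2 a3 a4
  decide

/-- reindexing pairs (triple, element) as pairs (pair, element outside) -/
lemma sum_triple_erase (s : Finset V) (g : V → ℤ) (f : Finset V → ℤ) :
    ∑ T ∈ powersetCard 3 s, ∑ z ∈ T, g z * f (T.erase z)
      = ∑ P ∈ powersetCard 2 s, ∑ z ∈ s \ P, g z * f P := by
  rw [sum_sigma', sum_sigma']
  refine sum_bij' (fun (a : (_ : Finset V) × V) _ => (⟨a.1.erase a.2, a.2⟩ : (_ : Finset V) × V))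
    (fun (a : (_ : Finset V) × V) _ => (⟨insert a.2 a.1, a.2⟩ : (_ : Finset V) × V)) ?_ ?_ ?_ ?_ ?_
  · rintro ⟨T, z⟩ h
    simp only [mem_sigma, mem_powersetCard, mem_sdiff] at h ⊢
    refine ⟨⟨(erase_subset _ _).trans h.1.1, ?_⟩, h.1.1 h.2, by simp⟩
    rw [card_erase_of_mem h.2, h.1.2]
  · rintro ⟨P, z⟩ h
    simp only [mem_sigma, mem_powersetCard, mem_sdiff] at h ⊢
    refine ⟨⟨insert_subset h.2.1 h.1.1, ?_⟩, mem_insert_self _ _⟩
    rw [card_insert_of_notMem h.2.2, h.1.2]
  · rintro ⟨T, z⟩ h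
    simp only [mem_sigma] at h
    simp [insert_erase h.2]
  · rintro ⟨P, z⟩ h
    simp only [mem_sigma, mem_sdiff] at h
    simp [erase_insert h.2.2]
  · rintro ⟨T, z⟩ h
    rfl

lemma cl_zero_of_n4 {G : SimpleGraph V} (h : n4 G = 0) {S : Finset V} (hS : S.card = 4) :
    cl G S = 0 :=
  (sum_eq_zero_iff_of_nonneg fun T _ => cl_nonneg G T).1 h S
    (mem_powersetCard.2 ⟨subset_univ _, hS⟩)

lemma n4_nonneg (G : SimpleGraph V) : 0 ≤ n4 G := sum_nonneg fun T _ => cl_nonneg G T

lemma n4_del_zero {G : SimpleGraph V} (h0 : n4 G = 0) (h : G.Adj x y) : n4 (del G x y) = 0 := by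
  have h1 := n4_del h
  have h2 : 0 ≤ kap G x y := sum_nonneg fun T _ => cl_nonneg G _
  have h3 := n4_nonneg (del G x y)
  omega

lemma kap_zero {G : SimpleGraph V} (h0 : n4 G = 0) (h : G.Adj x y) : kap G x y = 0 := by
  have h1 := n4_del h
  have h2 : 0 ≤ kap G x y := sum_nonneg fun T _ => cl_nonneg G _
  have h3 := n4_nonneg (del G x y)
  omega

lemma mul_tau_zero {G : SimpleGraph V} (h0 : n4 G = 0) (h : G.Adj x y) {P : Finset V}
    (hP : P ∈ powersetCard 2 (oth x y)) {z : V} (hz : z ∈ P) : mm G x y z * tau G x y P = 0 := by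
  have hxy := h.ne
  obtain ⟨u, v, hu, hv, huv, rfl⟩ := pair_cases hP
  obtain ⟨h1, h2⟩ := mem_oth.1 hu
  obtain ⟨h3, h4⟩ := mem_oth.1 hv
  have h5 := cl_zero_of_n4 h0 (card_four hxy h1.symm h3.symm h2.symm h4.symm huv)
  rw [cl_four _ hxy h1.symm h3.symm h2.symm h4.symm huv, ad_true.2 h] at h5
  rw [tau_pair hxy hu hv huv]
  have key : ∀ a b c d e : Bool, bcl4 true a b c d e = 0 →
      ((a && c).toNat : ℤ) * btau a b c d e = 0 ∧ ((b && d).toNat : ℤ) * btau a b c d e = 0 := by
    decide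
  have := key _ _ _ _ _ h5
  rcases mem_insert.1 hz with rfl | hz
  · exact this.1
  · rw [mem_singleton.1 hz]
    exact this.2

lemma sum_mm_tau {G : SimpleGraph V} (h0 : n4 G = 0) (h : G.Adj x y) :
    ∑ T ∈ powersetCard 3 (oth x y), ∑ z ∈ T, mm G x y z * tau G x y (T.erase z)
      = (cm G x y).card * tt G x y := by
  rw [sum_triple_erase, tt, mul_sum]
  refine sum_congr rfl fun P hP => ?_
  have h1 : ∑ z ∈ P, mm G x y z * tau G x y P = 0 :=
    sum_eq_zero fun z hz => mul_tau_zero h0 h hP hz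
  have h2 := sum_sdiff (f := fun z => mm G x y z * tau G x y P) (mem_powersetCard.1 hP).1
  rw [h1, add_zero] at h2
  rw [h2, ← sum_mul, sum_mm]

lemma i4_con_aux {G : SimpleGraph V} (h0 : n4 G = 0) (h : G.Adj x y) :
    ∑ T ∈ powersetCard 3 (oth x y),
        (cyc G (insert x T) + cyc G (insert y T) - cyc (con G x y) (insert x T))
      = i4 G - i4 (con G x y) - tt G x y := by
  have hxy := h.ne
  have h1 := sub_con G (F := cyc) (fun _ _ _ h => cyc_congr h) 2
    (fun _ _ _ h1 h2 h3 => cyc_isolated h1 h2) hxy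
  have h2 : ∑ S ∈ powersetCard 2 (oth x y), cyc G (insert x (insert y S)) = tt G x y := by
    unfold tt
    refine sum_congr rfl fun P hP => ?_
    obtain ⟨u, v, hu, hv, huv, rfl⟩ := pair_cases hP
    obtain ⟨h1, h2⟩ := mem_oth.1 hu
    obtain ⟨h3, h4⟩ := mem_oth.1 hv
    have h5 := cl_zero_of_n4 h0 (card_four hxy h1.symm h3.symm h2.symm h4.symm huv)
    rw [cl_four _ hxy h1.symm h3.symm h2.symm h4.symm huv, ad_true.2 h] at h5
    rw [tau_pair hxy hu hv huv, cyc_four _ hxy h1.symm h3.symm h2.symm h4.symm huv, ad_true.2 h,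
      check_pair0 _ _ _ _ _ h5]
  rw [h2] at h1
  unfold i4
  linarith

lemma n4_con_aux {G : SimpleGraph V} (h0 : n4 G = 0) (h : G.Adj x y) :
    ∑ T ∈ powersetCard 3 (oth x y), cl (con G x y) (insert x T) = n4 (con G x y) := by
  have hxy := h.ne
  have h1 := sub_con G (F := cl) (fun _ _ _ h => cl_congr h) 2
    (fun _ _ _ h1 h2 h3 => cl_isolated h1 h2 (by omega)) hxy
  have h2 : ∑ S ∈ powersetCard 2 (oth x y), cl G (insert x (insert y S)) = 0 := kap_zero h0 h
  have h3 : ∑ S ∈ powersetCard 3 (oth x y),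
      (cl G (insert x S) + cl G (insert y S) - cl (con G x y) (insert x S))
      = - ∑ T ∈ powersetCard 3 (oth x y), cl (con G x y) (insert x T) := by
    rw [← sum_neg_distrib]
    refine sum_congr rfl fun T hT => ?_
    obtain ⟨hT1, hT2⟩ := mem_powersetCard.1 hT
    rw [cl_zero_of_n4 h0, cl_zero_of_n4 h0]
    · ring
    · rw [card_insert_of_notMem (fun h => (mem_oth.1 (hT1 h)).2 rfl), hT2]
    · rw [card_insert_of_notMem (fun h => (mem_oth.1 (hT1 h)).1 rfl), hT2]
  change n4 G - n4 (con G x y) = _ at h1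
  rw [h2, h3, h0] at h1
  linarith

lemma f5_del {G : SimpleGraph V} (h0 : n4 G = 0) (h : G.Adj x y) : f5 G - f5 (del G x y)
    = ((cm G x y).card - 1) * tt G x y + (i4 G - i4 (con G x y)) + 2 * n4 (con G x y)
      - (((cm G x y).card.choose 3 : ℕ) : ℤ) := by
  have hxy := h.ne
  have h1 := sub_del G (F := x4) (fun _ _ _ h => x4_congr h) hxy 3
  have h2 : ∑ S ∈ powersetCard 3 (oth x y),
      (x4 G (insert x (insert y S)) - x4 (del G x y) (insert x (insert y S)))
      = ∑ T ∈ powersetCard 3 (oth x y), ((∑ z ∈ T, mm G x y z * tau G x y (T.erase z))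
        - (∏ z ∈ T, mm G x y z)
        + (cyc G (insert x T) + cyc G (insert y T) - cyc (con G x y) (insert x T))
        + 2 * cl (con G x y) (insert x T)) := by
    refine sum_congr rfl fun P hP => ?_
    obtain ⟨u, v, w, hu, hv, hw, huv, huw, hvw, rfl⟩ := triple_cases hP
    obtain ⟨hux, huy⟩ := mem_oth.1 hu
    obtain ⟨hvx, hvy⟩ := mem_oth.1 hv
    obtain ⟨hwx, hwy⟩ := mem_oth.1 hw
    have k1 := cl_zero_of_n4 h0 (card_four hxy hux.symm hvx.symm huy.symm hvy.symm huv)
    have k2 := cl_zero_of_n4 h0 (card_four hxy hux.symm hwx.symm huy.symm hwy.symm huw)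
    have k3 := cl_zero_of_n4 h0 (card_four hxy hvx.symm hwx.symm hvy.symm hwy.symm hvw)
    have k4 := cl_zero_of_n4 h0 (card_four hux.symm hvx.symm hwx.symm huv huw hvw)
    have k5 := cl_zero_of_n4 h0 (card_four huy.symm hvy.symm hwy.symm huv huw hvw)
    rw [cl_four _ hxy hux.symm hvx.symm huy.symm hvy.symm huv, ad_true.2 h] at k1
    rw [cl_four _ hxy hux.symm hwx.symm huy.symm hwy.symm huw, ad_true.2 h] at k2
    rw [cl_four _ hxy hvx.symm hwx.symm hvy.symm hwy.symm hvw, ad_true.2 h] at k3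
    rw [cl_four _ hux.symm hvx.symm hwx.symm huv huw hvw] at k4
    rw [cl_four _ huy.symm hvy.symm hwy.symm huv huw hvw] at k5
    have key := check_triple _ _ _ _ _ _ _ _ _ k1 k2 k3 k4 k5
    have e1 : ({u, v, w} : Finset V).erase u = {v, w} := by
      rw [erase_insert]; simp [huv, huw]
    have e2 : ({u, v, w} : Finset V).erase v = {u, w} := by
      rw [Finset.insert_comm, erase_insert]; simp [huv.symm, hvw]
    have e3 : ({u, v, w} : Finset V).erase w = {u, v} := by
      rw [Finset.pair_comm v w, Finset.insert_comm, erase_insert]; simp [huw.symm, hvw.symm]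
    have s1 : ∑ z ∈ ({u, v, w} : Finset V), mm G x y z * tau G x y (({u, v, w} : Finset V).erase z)
        = mm G x y u * tau G x y {v, w} + (mm G x y v * tau G x y {u, w}
          + mm G x y w * tau G x y {u, v}) := by
      rw [sum_insert (by simp [huv, huw]), sum_pair hvw, e1, e2, e3]
    have s2 : ∏ z ∈ ({u, v, w} : Finset V), mm G x y z
        = (((ad G x u && ad G x v && ad G x w && ad G y u && ad G y v && ad G y w).toNat : ℕ) : ℤ) := by
      rw [prod_insert (by simp [huv, huw]), prod_pair hvw]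
      unfold mm
      generalize ad G x u = a1
      generalize ad G x v = a2
      generalize ad G x w = a3
      generalize ad G y u = a4
      generalize ad G y v = a5
      generalize ad G y w = a6
      revert a1 a2 a3 a4 a5 a6
      decide
    rw [x4_five _ hxy hux.symm hvx.symm hwx.symm huy.symm hvy.symm hwy.symm huv huw hvw,
      x4_five _ hxy hux.symm hvx.symm hwx.symm huy.symm hvy.symm hwy.symm huv huw hvw,
      ad_del_xy, ad_true.2 h, ad_del_right G _ hux huy, ad_del_right G _ hux huy,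
      ad_del_right G _ hvx hvy, ad_del_right G _ hvx hvy, ad_del_right G _ hvx hvy,
      ad_del_right G _ hwx hwy, ad_del_right G _ hwx hwy, ad_del_right G _ hwx hwy,
      ad_del_right G _ hwx hwy, key, s1, s2, tau_pair hxy hv hw hvw, tau_pair hxy hu hw huw,
      tau_pair hxy hu hv huv,
      cyc_four _ hux.symm hvx.symm hwx.symm huv huw hvw,
      cyc_four _ huy.symm hvy.symm hwy.symm huv huw hvw,
      cyc_four _ hux.symm hvx.symm hwx.symm huv huw hvw,
      cl_four _ hux.symm hvx.symm hwx.symm huv huw hvw,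
      ad_con_x G hxy hux huy, ad_con_x G hxy hvx hvy, ad_con_x G hxy hwx hwy,
      ad_con_o G hux huy hvx hvy, ad_con_o G hux huy hwx hwy, ad_con_o G hvx hvy hwx hwy]
    unfold mm
    ring
  rw [f5, f5, h1, h2, sum_add_distrib, sum_add_distrib, sum_sub_distrib, sum_mm_tau h0 h,
    sum_prod_mm, i4_con_aux h0 h, ← mul_sum, n4_con_aux h0 h]
  ring

end K3h21.Chrom
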