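import Mathlib

/-!
# Local counting identities for the coefficients of the chromatic polynomial

Patterns on 2, 3, 4 and 5 vertex sets of a graph and the finite checks used in the
deletion-contraction proof of the formulas for the first coefficients.
-/

set_option autoImplicit false
set_option linter.unusedSectionVars false
set_option linter.unusedSimpArgs false

open Finset

namespace K3h21.Chrom

open Classical in
/-- the adjacency indicator -/
noncomputable def ad {V : Type*} (G : SimpleGraph V) (u v : V) : Bool := decide (G.Adj u v)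

/-- the degree of `v` inside `S` -/
noncomputable def dg {V : Type*} (G : SimpleGraph V) (S : Finset V) (v : V) : ℕ :=
  ∑ u ∈ S, (ad G v u).toNat

open Classical in
/-- indicator of: `S` is a clique -/
noncomputable def cl {V : Type*} (G : SimpleGraph V) (S : Finset V) : ℤ :=
  if ∀ v ∈ S, dg G S v + 1 = S.card then 1 else 0

open Classical in
/-- indicator of: all degrees inside `S` are two (for sets of 4 vertices: an induced 4-cycle, for
sets of 5 vertices: an induced 5-cycle) -/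
noncomputable def cyc {V : Type*} (G : SimpleGraph V) (S : Finset V) : ℤ :=
  if ∀ v ∈ S, dg G S v = 2 then 1 else 0

open Classical in
/-- indicator of: the 5-set `S` induces `K_{2,3}` -/
noncomputable def k23 {V : Type*} (G : SimpleGraph V) (S : Finset V) : ℤ :=
  if ∑ v ∈ S, dg G S v = 12 ∧ ∀ v ∈ S, (dg G S v = 2 ∨ dg G S v = 3) ∧
    (dg G S v = 3 → ∀ u ∈ S, dg G S u = 3 → ad G v u = false) then 1 else 0

open Classical in
/-- indicator of: the 5-set `S` induces the wheel with four spokes minus a spoke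
(degrees `3,3,3,3,2`) -/
noncomputable def wm {V : Type*} (G : SimpleGraph V) (S : Finset V) : ℤ :=
  if ∑ v ∈ S, dg G S v = 14 ∧ ∀ v ∈ S, (dg G S v = 2 ∨ dg G S v = 3) then 1 else 0

open Classical in
/-- indicator of: the 5-set `S` induces the wheel with four spokes (degrees `4,3,3,3,3`) -/
noncomputable def wh {V : Type*} (G : SimpleGraph V) (S : Finset V) : ℤ :=
  if ∑ v ∈ S, dg G S v = 16 ∧ ∀ v ∈ S, (dg G S v = 3 ∨ dg G S v = 4) then 1 else 0

/-- the combination of five-vertex patterns in the fourth coefficient -/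
noncomputable def x4 {V : Type*} (G : SimpleGraph V) (S : Finset V) : ℤ :=
  k23 G S + 2 * wm G S + 3 * wh G S - cyc G S

variable {V : Type*} [DecidableEq V]

lemma ad_comm (G : SimpleGraph V) (u v : V) : ad G u v = ad G v u := by
  simp [ad, G.adj_comm]

lemma ad_self (G : SimpleGraph V) (u : V) : ad G u u = false := by
  simp [ad]

lemma ad_true {G : SimpleGraph V} {u v : V} : ad G u v = true ↔ G.Adj u v := by simp [ad]

/-! ### values on small sets -/

/-- clique on two vertices -/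
def bcl2 (a : Bool) : ℤ := if a.toNat + 1 = 2 then 1 else 0

def bcl3 (a b c : Bool) : ℤ :=
  if (a.toNat + b.toNat + 1 = 3) ∧ (a.toNat + c.toNat + 1 = 3) ∧ (b.toNat + c.toNat + 1 = 3)
  then 1 else 0

/-- `a = pq, b = pr, c = ps, d = qr, e = qs, f = rs` -/
def bcl4 (a b c d e f : Bool) : ℤ :=
  if (a.toNat + b.toNat + c.toNat + 1 = 4) ∧ (a.toNat + d.toNat + e.toNat + 1 = 4) ∧
    (b.toNat + d.toNat + f.toNat + 1 = 4) ∧ (c.toNat + e.toNat + f.toNat + 1 = 4) then 1 else 0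

def bcy4 (a b c d e f : Bool) : ℤ :=
  if (a.toNat + b.toNat + c.toNat = 2) ∧ (a.toNat + d.toNat + e.toNat = 2) ∧
    (b.toNat + d.toNat + f.toNat = 2) ∧ (c.toNat + e.toNat + f.toNat = 2) then 1 else 0

/-- `K_{2,3}` from the degrees `p q r s t` and the ten adjacencies -/
def bk23 (p q r s t : ℕ) (pq pr ps pt qr qs qt rs rt st : Bool) : ℤ :=
  if p + (q + (r + (s + t))) = 12 ∧
    ((p = 2 ∨ p = 3) ∧ (q = 2 ∨ q = 3) ∧ (r = 2 ∨ r = 3) ∧ (s = 2 ∨ s = 3) ∧ (t = 2 ∨ t = 3)) ∧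
    ((p = 3 ∧ q = 3 ∧ pq = true) ∨ (p = 3 ∧ r = 3 ∧ pr = true) ∨ (p = 3 ∧ s = 3 ∧ ps = true) ∨
      (p = 3 ∧ t = 3 ∧ pt = true) ∨ (q = 3 ∧ r = 3 ∧ qr = true) ∨ (q = 3 ∧ s = 3 ∧ qs = true) ∨
      (q = 3 ∧ t = 3 ∧ qt = true) ∨ (r = 3 ∧ s = 3 ∧ rs = true) ∨ (r = 3 ∧ t = 3 ∧ rt = true) ∨
      (s = 3 ∧ t = 3 ∧ st = true) → False) then 1 else 0

def bwm (p q r s t : ℕ) : ℤ :=
  if p + (q + (r + (s + t))) = 14 ∧
    ((p = 2 ∨ p = 3) ∧ (q = 2 ∨ q = 3) ∧ (r = 2 ∨ r = 3) ∧ (s = 2 ∨ s = 3) ∧ (t = 2 ∨ t = 3))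
    then 1 else 0

def bwh (p q r s t : ℕ) : ℤ :=
  if p + (q + (r + (s + t))) = 16 ∧
    ((p = 3 ∨ p = 4) ∧ (q = 3 ∨ q = 4) ∧ (r = 3 ∨ r = 4) ∧ (s = 3 ∨ s = 4) ∧ (t = 3 ∨ t = 4))
    then 1 else 0

def bcy5 (p q r s t : ℕ) : ℤ :=
  if p = 2 ∧ q = 2 ∧ r = 2 ∧ s = 2 ∧ t = 2 then 1 else 0

def bx4d (p q r s t : ℕ) (pq pr ps pt qr qs qt rs rt st : Bool) : ℤ :=
  bk23 p q r s t pq pr ps pt qr qs qt rs rt st + 2 * bwm p q r s t + 3 * bwh p q r s t
    - bcy5 p q r s t

def bx4 (pq pr ps pt qr qs qt rs rt st : Bool) : ℤ :=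
  bx4d (pq.toNat + (pr.toNat + (ps.toNat + pt.toNat))) (pq.toNat + (qr.toNat + (qs.toNat + qt.toNat)))
    (pr.toNat + (qr.toNat + (rs.toNat + rt.toNat))) (ps.toNat + (qs.toNat + (rs.toNat + st.toNat)))
    (pt.toNat + (qt.toNat + (rt.toNat + st.toNat))) pq pr ps pt qr qs qt rs rt st

lemma cl_two (G : SimpleGraph V) {p q : V} (h : p ≠ q) :
    cl G {p, q} = bcl2 (ad G p q) := by
  have hc : ({p, q} : Finset V).card = 2 := Finset.card_pair h
  have hs : ∀ f : V → ℕ, ∑ u ∈ ({p, q} : Finset V), f u = f p + f q :=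
    fun f => Finset.sum_pair h
  unfold cl bcl2 dg
  simp only [hs, hc, Finset.forall_mem_insert, Finset.mem_singleton, forall_eq, ad_self,
    ad_comm G q p, Bool.toNat_false, zero_add, add_zero, and_self]

lemma cl_three (G : SimpleGraph V) {p q r : V} (h1 : p ≠ q) (h2 : p ≠ r) (h3 : q ≠ r) :
    cl G {p, q, r} = bcl3 (ad G p q) (ad G p r) (ad G q r) := by
  have hc : ({p, q, r} : Finset V).card = 3 := Finset.card_eq_three.2 ⟨p, q, r, h1, h2, h3, rfl⟩
  have hs : ∀ f : V → ℕ, ∑ u ∈ ({p, q, r} : Finset V), f u = f p + (f q + f r) := by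
    intro f
    rw [Finset.sum_insert (by simp [h1, h2]), Finset.sum_pair h3]
  unfold cl bcl3 dg
  simp only [hs, hc, Finset.forall_mem_insert, Finset.mem_singleton, forall_eq, ad_self,
    ad_comm G q p, ad_comm G r p, ad_comm G r q, Bool.toNat_false, zero_add, add_zero]

lemma sum_four {p q r s : V} (h1 : p ≠ q) (h2 : p ≠ r) (h3 : p ≠ s) (h4 : q ≠ r) (h5 : q ≠ s)
    (h6 : r ≠ s) (f : V → ℕ) :
    ∑ u ∈ ({p, q, r, s} : Finset V), f u = f p + (f q + (f r + f s)) := by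
  rw [Finset.sum_insert (by simp [h1, h2, h3]), Finset.sum_insert (by simp [h4, h5]),
    Finset.sum_pair h6]

lemma sum_five {p q r s t : V} (h1 : p ≠ q) (h2 : p ≠ r) (h3 : p ≠ s) (h3' : p ≠ t) (h4 : q ≠ r)
    (h5 : q ≠ s) (h5' : q ≠ t) (h6 : r ≠ s) (h6' : r ≠ t) (h7 : s ≠ t) (f : V → ℕ) :
    ∑ u ∈ ({p, q, r, s, t} : Finset V), f u = f p + (f q + (f r + (f s + f t))) := by
  rw [Finset.sum_insert (by simp [h1, h2, h3, h3']), Finset.sum_insert (by simp [h4, h5, h5']),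
    Finset.sum_insert (by simp [h6, h6']), Finset.sum_pair h7]

lemma card_four {p q r s : V} (h1 : p ≠ q) (h2 : p ≠ r) (h3 : p ≠ s) (h4 : q ≠ r) (h5 : q ≠ s)
    (h6 : r ≠ s) : ({p, q, r, s} : Finset V).card = 4 := by
  rw [Finset.card_insert_of_notMem (by simp [h1, h2, h3]),
    Finset.card_insert_of_notMem (by simp [h4, h5]), Finset.card_pair h6]

lemma cl_four (G : SimpleGraph V) {p q r s : V} (h1 : p ≠ q) (h2 : p ≠ r) (h3 : p ≠ s)
    (h4 : q ≠ r) (h5 : q ≠ s) (h6 : r ≠ s) :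
    cl G {p, q, r, s} = bcl4 (ad G p q) (ad G p r) (ad G p s) (ad G q r) (ad G q s) (ad G r s) := by
  unfold cl bcl4 dg
  simp only [sum_four h1 h2 h3 h4 h5 h6, card_four h1 h2 h3 h4 h5 h6, Finset.forall_mem_insert,
    Finset.mem_singleton, forall_eq, ad_self,
    ad_comm G q p, ad_comm G r p, ad_comm G r q, ad_comm G s p, ad_comm G s q, ad_comm G s r,
    Bool.toNat_false, zero_add, add_zero, add_assoc]

lemma cyc_four (G : SimpleGraph V) {p q r s : V} (h1 : p ≠ q) (h2 : p ≠ r) (h3 : p ≠ s)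
    (h4 : q ≠ r) (h5 : q ≠ s) (h6 : r ≠ s) :
    cyc G {p, q, r, s} = bcy4 (ad G p q) (ad G p r) (ad G p s) (ad G q r) (ad G q s) (ad G r s) := by
  unfold cyc bcy4 dg
  simp only [sum_four h1 h2 h3 h4 h5 h6, Finset.forall_mem_insert,
    Finset.mem_singleton, forall_eq, ad_self,
    ad_comm G q p, ad_comm G r p, ad_comm G r q, ad_comm G s p, ad_comm G s q, ad_comm G s r,
    Bool.toNat_false, zero_add, add_zero, add_assoc]

lemma x4_five (G : SimpleGraph V) {p q r s t : V} (h1 : p ≠ q) (h2 : p ≠ r) (h3 : p ≠ s)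
    (h3' : p ≠ t) (h4 : q ≠ r) (h5 : q ≠ s) (h5' : q ≠ t) (h6 : r ≠ s) (h6' : r ≠ t) (h7 : s ≠ t) :
    x4 G {p, q, r, s, t} = bx4 (ad G p q) (ad G p r) (ad G p s) (ad G p t) (ad G q r) (ad G q s)
      (ad G q t) (ad G r s) (ad G r t) (ad G s t) := by
  have hd : ∀ z, dg G {p, q, r, s, t} z = (ad G z p).toNat + ((ad G z q).toNat + ((ad G z r).toNat
      + ((ad G z s).toNat + (ad G z t).toNat))) := fun z =>
    sum_five h1 h2 h3 h3' h4 h5 h5' h6 h6' h7 _
  have hp := hd p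
  have hq := hd q
  have hr := hd r
  have hs := hd s
  have ht := hd t
  simp only [ad_self, ad_comm G q p, ad_comm G r p, ad_comm G r q, ad_comm G s p, ad_comm G s q,
    ad_comm G s r, ad_comm G t p, ad_comm G t q, ad_comm G t r, ad_comm G t s,
    Bool.toNat_false, zero_add, add_zero] at hp hq hr hs ht
  have e1 : k23 G {p, q, r, s, t} = bk23 (dg G {p, q, r, s, t} p) (dg G {p, q, r, s, t} q)
      (dg G {p, q, r, s, t} r) (dg G {p, q, r, s, t} s) (dg G {p, q, r, s, t} t)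
      (ad G p q) (ad G p r) (ad G p s) (ad G p t) (ad G q r) (ad G q s)
      (ad G q t) (ad G r s) (ad G r t) (ad G s t) := by
    unfold k23 bk23
    apply if_congr _ rfl rfl
    rw [sum_five h1 h2 h3 h3' h4 h5 h5' h6 h6' h7]
    generalize dg G {p, q, r, s, t} = D
    simp only [Finset.forall_mem_insert, Finset.mem_singleton, forall_eq, ad_self,
      ad_comm G q p, ad_comm G r p, ad_comm G r q, ad_comm G s p, ad_comm G s q,
      ad_comm G s r, ad_comm G t p, ad_comm G t q, ad_comm G t r, ad_comm G t s]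
    constructor
    · rintro ⟨a, ⟨b1, c1⟩, ⟨b2, c2⟩, ⟨b3, c3⟩, ⟨b4, c4⟩, b5, c5⟩
      refine ⟨a, ⟨b1, b2, b3, b4, b5⟩, ?_⟩
      rintro (⟨u, v, w⟩ | ⟨u, v, w⟩ | ⟨u, v, w⟩ | ⟨u, v, w⟩ | ⟨u, v, w⟩ | ⟨u, v, w⟩ | ⟨u, v, w⟩ |
        ⟨u, v, w⟩ | ⟨u, v, w⟩ | ⟨u, v, w⟩)
      · simp [(c1 u).2.1 v] at w
      · simp [(c1 u).2.2.1 v] at w
      · simp [(c1 u).2.2.2.1 v] at w
      · simp [(c1 u).2.2.2.2 v] at w
      · simp [(c2 u).2.2.1 v] at w
      · simp [(c2 u).2.2.2.1 v] at w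
      · simp [(c2 u).2.2.2.2 v] at w
      · simp [(c3 u).2.2.2.1 v] at w
      · simp [(c3 u).2.2.2.2 v] at w
      · simp [(c4 u).2.2.2.2 v] at w
    · rintro ⟨a, ⟨b1, b2, b3, b4, b5⟩, c⟩
      have k : ∀ b : Bool, (b = true → False) → b = false := by decide
      have c12 : D p = 3 → D q = 3 → ad G p q = false := fun u v => k _ fun w => c (Or.inl ⟨u, v, w⟩)
      have c13 : D p = 3 → D r = 3 → ad G p r = false := fun u v => k _ fun w => c (Or.inr (Or.inl ⟨u, v, w⟩))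
      have c14 : D p = 3 → D s = 3 → ad G p s = false := fun u v => k _ fun w => c (Or.inr (Or.inr (Or.inl ⟨u, v, w⟩)))
      have c15 : D p = 3 → D t = 3 → ad G p t = false := fun u v => k _ fun w => c (Or.inr (Or.inr (Or.inr (Or.inl ⟨u, v, w⟩))))
      have c23 : D q = 3 → D r = 3 → ad G q r = false := fun u v => k _ fun w => c (Or.inr (Or.inr (Or.inr (Or.inr (Or.inl ⟨u, v, w⟩)))))
      have c24 : D q = 3 → D s = 3 → ad G q s = false := fun u v => k _ fun w => c (Or.inr (Or.inr (Or.inr (Or.inr (Or.inr (Or.inl ⟨u, v, w⟩))))))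
      have c25 : D q = 3 → D t = 3 → ad G q t = false := fun u v => k _ fun w => c (Or.inr (Or.inr (Or.inr (Or.inr (Or.inr (Or.inr (Or.inl ⟨u, v, w⟩)))))))
      have c34 : D r = 3 → D s = 3 → ad G r s = false := fun u v => k _ fun w => c (Or.inr (Or.inr (Or.inr (Or.inr (Or.inr (Or.inr (Or.inr (Or.inl ⟨u, v, w⟩))))))))
      have c35 : D r = 3 → D t = 3 → ad G r t = false := fun u v => k _ fun w => c (Or.inr (Or.inr (Or.inr (Or.inr (Or.inr (Or.inr (Or.inr (Or.inr (Or.inl ⟨u, v, w⟩)))))))))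
      have c45 : D s = 3 → D t = 3 → ad G s t = false := fun u v => k _ fun w => c (Or.inr (Or.inr (Or.inr (Or.inr (Or.inr (Or.inr (Or.inr (Or.inr (Or.inr (⟨u, v, w⟩))))))))))
      exact ⟨a, ⟨b1, fun h => ⟨fun _ => trivial, c12 h, c13 h, c14 h, c15 h⟩⟩,
            ⟨b2, fun h => ⟨fun h' => c12 h' h, fun _ => trivial, c23 h, c24 h, c25 h⟩⟩,
            ⟨b3, fun h => ⟨fun h' => c13 h' h, fun h' => c23 h' h, fun _ => trivial, c34 h, c35 h⟩⟩,
            ⟨b4, fun h => ⟨fun h' => c14 h' h, fun h' => c24 h' h, fun h' => c34 h' h,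
              fun _ => trivial, c45 h⟩⟩,
            ⟨b5, fun h => ⟨fun h' => c15 h' h, fun h' => c25 h' h, fun h' => c35 h' h,
              fun h' => c45 h' h, fun _ => trivial⟩⟩⟩
  have e2 : wm G {p, q, r, s, t} = bwm (dg G {p, q, r, s, t} p) (dg G {p, q, r, s, t} q)
      (dg G {p, q, r, s, t} r) (dg G {p, q, r, s, t} s) (dg G {p, q, r, s, t} t) := by
    unfold wm bwm
    apply if_congr _ rfl rfl
    rw [sum_five h1 h2 h3 h3' h4 h5 h5' h6 h6' h7]
    simp only [Finset.forall_mem_insert, Finset.mem_singleton, forall_eq]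
  have e3 : wh G {p, q, r, s, t} = bwh (dg G {p, q, r, s, t} p) (dg G {p, q, r, s, t} q)
      (dg G {p, q, r, s, t} r) (dg G {p, q, r, s, t} s) (dg G {p, q, r, s, t} t) := by
    unfold wh bwh
    apply if_congr _ rfl rfl
    rw [sum_five h1 h2 h3 h3' h4 h5 h5' h6 h6' h7]
    simp only [Finset.forall_mem_insert, Finset.mem_singleton, forall_eq]
  have e4 : cyc G {p, q, r, s, t} = bcy5 (dg G {p, q, r, s, t} p) (dg G {p, q, r, s, t} q)
      (dg G {p, q, r, s, t} r) (dg G {p, q, r, s, t} s) (dg G {p, q, r, s, t} t) := by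
    unfold cyc bcy5
    apply if_congr _ rfl rfl
    simp only [Finset.forall_mem_insert, Finset.mem_singleton, forall_eq]
  unfold x4 bx4 bx4d
  rw [e1, e2, e3, e4, hp, hq, hr, hs, ht]

/-! ### the finite checks -/

/-- the correction for a pair: `a = xu, b = xv, c = yu, d = yv, e = uv` -/
def btau (a b c d e : Bool) : ℤ := bcl3 (a || c) (b || d) e - bcl3 a b e - bcl3 c d e

lemma check_pair : ∀ a b c d e : Bool,
    bcy4 true a b c d e - bcy4 false a b c d e
      = btau a b c d e + 2 * bcl4 true a b c d e - (a && b && c && d).toNat := by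
  decide

lemma check_pair0 : ∀ a b c d e : Bool, bcl4 true a b c d e = 0 →
    bcy4 true a b c d e = btau a b c d e := by
  decide

/-- `a = xu, b = xv, c = xw, d = yu, e = yv, f = yw, g = uv, h = uw, i = vw` -/
lemma check_triple : ∀ a b c d e f g h i : Bool,
    bcl4 true a b d e g = 0 → bcl4 true a c d f h = 0 → bcl4 true b c e f i = 0 →
    bcl4 a b c g h i = 0 → bcl4 d e f g h i = 0 →
    bx4 true a b c d e f g h i - bx4 false a b c d e f g h i
      = ((a && d).toNat * btau b c e f i + (b && e).toNat * btau a c d f h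
          + (c && f).toNat * btau a b d e g)
        - (a && b && c && d && e && f).toNat
        + bcy4 a b c g h i + bcy4 d e f g h i
        - bcy4 (a || d) (b || e) (c || f) g h i + 2 * bcl4 (a || d) (b || e) (c || f) g h i := by
  decide

end K3h21.Chrom
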