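import Pool.Agent.K3h21.ChromCount

/-!
# The first coefficients of the chromatic polynomial

`goodPoly`: the number of proper `q`-colourings of a graph `G` on `N` vertices is
`q ^ N * p(1 / q)` for a polynomial `p` whose first coefficients are given by the numbers of edges,
triangles, induced 4-cycles, complete graphs on four vertices and a combination of five-vertex
patterns.  `chrom_counts_eq`: two graphs without complete subgraphs on four vertices and with equal
numbers of proper `q`-colourings for every `q` have the same numbers.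
-/

set_option autoImplicit false
set_option linter.unusedSectionVars false
set_option linter.unusedSimpArgs false

open Finset

namespace K3h21.Chrom

variable {V : Type*} [Fintype V] [DecidableEq V]

open Classical in
/-- the proper colourings with `q` colours -/
noncomputable def cf (G : SimpleGraph V) (q : ℕ) : Finset (V → Fin q) :=
  univ.filter fun f => ∀ u v, G.Adj u v → f u ≠ f v

lemma mem_cf {G : SimpleGraph V} {q : ℕ} {f : V → Fin q} :
    f ∈ cf G q ↔ ∀ u v, G.Adj u v → f u ≠ f v := by
  simp [cf]

/-- the number of proper colourings -/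
lemma card_coloring (G : SimpleGraph V) (q : ℕ) :
    Nat.card (G.Coloring (Fin q)) = (cf G q).card := by
  have e : G.Coloring (Fin q) ≃ {f // f ∈ cf G q} :=
    { toFun := fun C => ⟨fun v => C v, mem_cf.2 fun u v h => C.valid h⟩
      invFun := fun f => SimpleGraph.Coloring.mk f.1 fun {u v} h => mem_cf.1 f.2 u v h
      left_inv := fun C => by ext v; rfl
      right_inv := fun f => by ext v; rfl }
  rw [Nat.card_congr e, Nat.card_eq_fintype_card, Fintype.card_coe]

/-- deletion-contraction for the number of colourings -/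
lemma cf_rec {G : SimpleGraph V} {x y : V} (h : G.Adj x y) (q : ℕ) :
    q * (cf (del G x y) q).card = q * (cf G q).card + (cf (con G x y) q).card := by
  classical
  have hxy := h.ne
  have h1 : (cf (del G x y) q).card
      = (cf G q).card + ((cf (del G x y) q).filter fun f => f x = f y).card := by
    rw [← card_filter_add_card_filter_not (s := cf (del G x y) q) (fun f => ¬ f x = f y)]
    congr 1
    · congr 1
      ext f
      rw [mem_filter, mem_cf, mem_cf]
      constructor
      · rintro ⟨h1, h2⟩ u v huv
        by_cases e1 : u = x ∧ v = y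
        · rw [e1.1, e1.2]; exact h2
        · by_cases e2 : u = y ∧ v = x
          · rw [e2.1, e2.2]; exact fun h => h2 h.symm
          · exact h1 u v ⟨huv, e1, e2⟩
      · intro h1
        exact ⟨fun u v huv => h1 u v huv.1, h1 x y h⟩
    · congr 1
      ext f
      simp only [not_not]
  have h2 : ((univ : Finset (Fin q)) ×ˢ ((cf (del G x y) q).filter fun f => f x = f y)).card
      = (cf (con G x y) q).card := by
    refine card_bij' (fun a _ => Function.update a.2 y a.1)
      (fun g _ => (g y, Function.update g y (g x))) ?_ ?_ ?_ ?_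
    · rintro ⟨c, f⟩ hcf
      rw [mem_product, mem_filter, mem_cf] at hcf
      obtain ⟨-, hf, hfxy⟩ := hcf
      rw [mem_cf]
      rintro u v ⟨huv, huy, hvy, h'⟩
      simp only [Function.update_of_ne huy, Function.update_of_ne hvy]
      rcases h' with h' | ⟨rfl, h'⟩ | ⟨rfl, h'⟩
      · exact hf u v ⟨h', fun e => hvy e.2, fun e => huy e.1⟩
      · simp only at hfxy
        rw [hfxy]
        exact hf y v ⟨h', fun e => hvy e.2, fun e => huv e.2.symm⟩
      · simp only at hfxy
        rw [hfxy]
        exact fun e => hf y u ⟨h', fun e => huy e.2, fun e => huv e.2⟩ e.symm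
    · intro g hg
      rw [mem_cf] at hg
      rw [mem_product, mem_filter, mem_cf]
      refine ⟨mem_univ _, ?_, ?_⟩
      · rintro u v ⟨huv, h1, h2⟩
        by_cases huy : u = y
        · subst huy
          have hvu : v ≠ u := huv.ne.symm
          have hvx : v ≠ x := fun e => h2 ⟨rfl, e⟩
          simp only [Function.update_self, Function.update_of_ne hvu]
          exact hg x v ⟨hvx.symm, hxy, hvu, Or.inr (Or.inl ⟨rfl, huv⟩)⟩
        · by_cases hvy : v = y
          · subst hvy
            have hux : u ≠ x := fun e => h1 ⟨e, rfl⟩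
            simp only [Function.update_self, Function.update_of_ne huy]
            exact hg u x ⟨hux, huy, hxy, Or.inr (Or.inr ⟨rfl, huv.symm⟩)⟩
          · simp only [Function.update_of_ne huy, Function.update_of_ne hvy]
            exact hg u v ⟨huv.ne, huy, hvy, Or.inl huv⟩
      · simp only [Function.update_self, Function.update_of_ne hxy]
    · rintro ⟨c, f⟩ hcf
      rw [mem_product, mem_filter, mem_cf] at hcf
      obtain ⟨-, hf, hfxy⟩ := hcf
      simp only at hfxy
      simp only [Function.update_self, Function.update_of_ne hxy, Function.update_idem, hfxy,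
        Function.update_eq_self]
    · intro g hg
      simp only [Function.update_idem, Function.update_eq_self]
  rw [card_product, card_univ, Fintype.card_fin] at h2
  rw [h1, mul_add, h2]

lemma n2_nonneg (G : SimpleGraph V) : 0 ≤ n2 G := sum_nonneg fun T _ => cl_nonneg G T

open Polynomial in
/-- the first coefficients of the chromatic polynomial -/
def Good (G : SimpleGraph V) (p : ℚ[X]) : Prop :=
  (∀ q : ℕ, 0 < q → ((cf G q).card : ℚ) = (q : ℚ) ^ (Fintype.card V) * p.eval ((q : ℚ)⁻¹)) ∧
  p.coeff 0 = 1 ∧ p.coeff 1 = -(n2 G : ℚ) ∧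
  2 * p.coeff 2 = (n2 G : ℚ) * (n2 G - 1) - 2 * n3 G ∧
  6 * p.coeff 3 = -((n2 G : ℚ) * (n2 G - 1) * (n2 G - 2) - 6 * (n2 G - 2) * n3 G - 6 * i4 G
    + 12 * n4 G) ∧
  (n4 G = 0 → 24 * p.coeff 4 = (n2 G : ℚ) * (n2 G - 1) * (n2 G - 2) * (n2 G - 3)
    - 12 * (n2 G - 2) * (n2 G - 3) * n3 G + 12 * n3 G * (n3 G - 1) - 24 * (n2 G - 3) * i4 G
    + 24 * f5 G)

lemma good_empty {G : SimpleGraph V} (h : ∀ u v, ¬ G.Adj u v) : Good G 1 := by
  have had : ∀ u v, ad G u v = false := fun u v => by
    rw [← Bool.not_eq_true, ad_true]; exact h u v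
  have hcl : ∀ k, 2 ≤ k → ∀ S ∈ powersetCard k (univ : Finset V), cl G S = 0 := by
    intro k hk S hS
    have hc := (mem_powersetCard.1 hS).2
    obtain ⟨u, hu⟩ : S.Nonempty := card_pos.1 (by omega)
    exact cl_isolated hu (fun v => had u v) (by omega)
  have hcy : ∀ k, 2 ≤ k → ∀ S ∈ powersetCard k (univ : Finset V), cyc G S = 0 := by
    intro k hk S hS
    have hc := (mem_powersetCard.1 hS).2
    obtain ⟨u, hu⟩ : S.Nonempty := card_pos.1 (by omega)
    exact cyc_isolated hu (fun v => had u v)
  have e2 : n2 G = 0 := sum_eq_zero (hcl 2 (by norm_num))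
  have e3 : n3 G = 0 := sum_eq_zero (hcl 3 (by norm_num))
  have e4 : n4 G = 0 := sum_eq_zero (hcl 4 (by norm_num))
  have e4' : i4 G = 0 := sum_eq_zero (hcy 4 (by norm_num))
  have e5 : f5 G = 0 := by
    refine sum_eq_zero fun S hS => ?_
    have hd : ∀ v, dg G S v = 0 := fun v => by simp [dg, had]
    unfold x4 k23 wm wh
    rw [hcy 5 (by norm_num) S hS, if_neg (by simp [hd]), if_neg (by simp [hd]),
      if_neg (by simp [hd])]
    ring
  refine ⟨?_, by simp, by simp [e2, Polynomial.coeff_one], by simp [e2, e3, Polynomial.coeff_one],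
    by simp [e2, e3, e4, e4', Polynomial.coeff_one],
    fun _ => by simp [e2, e3, e4, e4', e5, Polynomial.coeff_one]⟩
  intro q _
  have : cf G q = univ := by
    ext f
    simp [mem_cf, h]
  rw [this]
  simp

lemma choose_three (n : ℕ) : 6 * ((n.choose 3 : ℕ) : ℚ) = (n : ℚ) * ((n : ℚ) - 1) * ((n : ℚ) - 2) := by
  induction n with
  | zero => simp
  | succ n ih =>
    rw [Nat.choose_succ_succ' n 2]
    push_cast
    rw [Nat.cast_choose_two]
    linear_combination ih

theorem goodPoly (G : SimpleGraph V) : ∃ p : Polynomial ℚ, Good G p := by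
  suffices h : ∀ n : ℕ, ∀ G : SimpleGraph V, (n2 G).toNat = n → ∃ p : Polynomial ℚ, Good G p from
    h _ G rfl
  intro n
  induction n using Nat.strong_induction_on with
  | _ n ih =>
    intro G hG
    by_cases hE : ∀ u v, ¬ G.Adj u v
    · exact ⟨1, good_empty hE⟩
    · push Not at hE
      obtain ⟨x, y, hxy⟩ := hE
      have d2 := n2_del hxy
      have c2 := n2_con hxy
      have d3 := n3_del hxy
      have c3 := n3_con hxy
      have d4 := n4_del hxy
      have di4 := i4_del hxy
      have hd0 := n2_nonneg (del G x y)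
      have hc0 := n2_nonneg (con G x y)
      have hk0 : (0 : ℤ) ≤ (cm G x y).card := by positivity
      obtain ⟨pd, hd1, hd2, hd3, hd4, hd5, hd6⟩ := ih (n2 (del G x y)).toNat (by omega) _ rfl
      obtain ⟨pc, hc1, hc2, hc3, hc4, hc5, hc6⟩ := ih (n2 (con G x y)).toNat (by omega) _ rfl
      have hC2 : 2 * ((((cm G x y).card.choose 2 : ℕ) : ℤ) : ℚ)
          = (((cm G x y).card : ℤ) : ℚ) * ((((cm G x y).card : ℤ) : ℚ) - 1) := by
        push_cast
        rw [Nat.cast_choose_two]
        ring
      have hC3 : 6 * ((((cm G x y).card.choose 3 : ℕ) : ℤ) : ℚ)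
          = (((cm G x y).card : ℤ) : ℚ) * ((((cm G x y).card : ℤ) : ℚ) - 1)
            * ((((cm G x y).card : ℤ) : ℚ) - 2) := by
        push_cast
        exact choose_three _
      have e2d : (n2 (del G x y) : ℚ) = n2 G - 1 := by
        have := congrArg (fun z : ℤ => (z : ℚ)) d2
        push_cast at this
        linarith
      have e2c : (n2 (con G x y) : ℚ) = n2 G - 1 - ((cm G x y).card : ℤ) := by
        have := congrArg (fun z : ℤ => (z : ℚ)) c2
        push_cast at this ⊢
        linarith
      have e3d : (n3 (del G x y) : ℚ) = n3 G - ((cm G x y).card : ℤ) := by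
        have := congrArg (fun z : ℤ => (z : ℚ)) d3
        push_cast at this ⊢
        linarith
      have e3c : (n3 (con G x y) : ℚ) = n3 G - ((cm G x y).card : ℤ) + tt G x y := by
        have := congrArg (fun z : ℤ => (z : ℚ)) c3
        push_cast at this ⊢
        linarith
      have e4d : (n4 (del G x y) : ℚ) = n4 G - kap G x y := by
        have := congrArg (fun z : ℤ => (z : ℚ)) d4
        push_cast at this ⊢
        linarith
      have ei4d : (i4 (del G x y) : ℚ)
          = i4 G - tt G x y - 2 * kap G x y + ((((cm G x y).card.choose 2 : ℕ) : ℤ) : ℚ) := by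
        have := congrArg (fun z : ℤ => (z : ℚ)) di4
        push_cast at this ⊢
        linarith
      rw [e2c] at hc3 hc4
      rw [e2d] at hd3 hd4 hd5
      rw [e3d] at hd4 hd5
      rw [e3c] at hc4
      rw [e4d, ei4d] at hd5
      refine ⟨pd - Polynomial.X * pc, ?_, ?_, ?_, ?_, ?_, ?_⟩
      · intro q hq
        have hq' : (q : ℚ) ≠ 0 := by positivity
        have h1 := congrArg (fun z : ℕ => (z : ℚ)) (cf_rec hxy q)
        push_cast at h1
        rw [hd1 q hq, hc1 q hq] at h1
        rw [Polynomial.eval_sub, Polynomial.eval_mul, Polynomial.eval_X]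
        generalize pd.eval ((q : ℚ)⁻¹) = a at h1 ⊢
        generalize pc.eval ((q : ℚ)⁻¹) = b at h1 ⊢
        field_simp
        linarith
      · rw [Polynomial.coeff_sub, Polynomial.coeff_X_mul_zero, hd2, sub_zero]
      · rw [Polynomial.coeff_sub, Polynomial.coeff_X_mul, hd3, hc2]
        ring
      · rw [Polynomial.coeff_sub, Polynomial.coeff_X_mul, hc3]
        linear_combination hd4
      · rw [Polynomial.coeff_sub, Polynomial.coeff_X_mul]
        linear_combination hd5 - 3 * hc4 + 3 * hC2
      · intro h0
        have h0d := n4_del_zero h0 hxy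
        have hk := kap_zero h0 hxy
        have df := f5_del h0 hxy
        have ef : (f5 (del G x y) : ℚ) = f5 G - (((cm G x y).card : ℤ) - 1) * tt G x y
            - (i4 G - i4 (con G x y)) - 2 * n4 (con G x y)
            + ((((cm G x y).card.choose 3 : ℕ) : ℤ) : ℚ) := by
          have := congrArg (fun z : ℤ => (z : ℚ)) df
          push_cast at this ⊢
          linarith
        have hd7 := hd6 h0d
        rw [e2d, e3d, ei4d, ef, hk] at hd7
        rw [e2c, e3c] at hc5
        rw [Polynomial.coeff_sub, Polynomial.coeff_X_mul]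
        push_cast at hd7
        linear_combination hd7 - 4 * hc5 - 12 * (n2 G - 4) * hC2 + 4 * hC3

/-! ### comparison of two graphs -/

variable {W : Type*} [Fintype W] [DecidableEq W]

lemma good_compare {G : SimpleGraph V} {H : SimpleGraph W} {p r : Polynomial ℚ} (hp : Good G p)
    (hr : Good H r) (h : ∀ q : ℕ, (cf G q).card = (cf H q).card)
    (hVW : Fintype.card V ≤ Fintype.card W) : Fintype.card V = Fintype.card W ∧ p = r := by
  obtain ⟨d, hd⟩ := Nat.exists_eq_add_of_le hVW
  have key : Polynomial.X ^ d * p = r := by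
    refine Polynomial.eq_of_infinite_eval_eq _ _ ?_
    refine Set.Infinite.mono (s := Set.range fun n : ℕ => ((n + 1 : ℕ) : ℚ)⁻¹) ?_ ?_
    · rintro _ ⟨n, rfl⟩
      have h1 := hp.1 (n + 1) (Nat.succ_pos n)
      have h2 := hr.1 (n + 1) (Nat.succ_pos n)
      have hq' : ((n + 1 : ℕ) : ℚ) ≠ 0 := by positivity
      rw [h, h2, hd, pow_add] at h1
      simp only [Set.mem_ofPred_eq, Polynomial.eval_mul, Polynomial.eval_pow, Polynomial.eval_X]
      generalize ((n + 1 : ℕ) : ℚ) = c at *
      have h3 : c ^ d * r.eval c⁻¹ = p.eval c⁻¹ := by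
        have : c ^ Fintype.card V ≠ 0 := pow_ne_zero _ hq'
        exact mul_left_cancel₀ this (by rw [← h1]; ring)
      rw [← h3, ← mul_assoc, ← mul_pow, inv_mul_cancel₀ hq', one_pow, one_mul]
    · refine Set.infinite_range_of_injective fun a b hab => ?_
      have := inv_injective hab
      have := Nat.cast_injective this
      omega
  have hd0 : d = 0 := by
    by_contra hne
    have h1 : (Polynomial.X ^ d * p).coeff 0 = 1 := by rw [key]; exact hr.2.1
    rw [Polynomial.mul_coeff_zero, Polynomial.coeff_X_pow, if_neg (Ne.symm hne), zero_mul] at h1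
    exact zero_ne_one h1
  subst hd0
  rw [pow_zero, one_mul] at key
  exact ⟨by omega, key⟩

/-- two graphs without complete subgraphs on four vertices and with the same numbers of proper
colourings have the same numbers of vertices, edges, triangles, induced 4-cycles and the same
combination of 5-vertex patterns -/
theorem chrom_counts_eq {G : SimpleGraph V} {H : SimpleGraph W} (hG : n4 G = 0) (hH : n4 H = 0)
    (h : ∀ q : ℕ, Nat.card (G.Coloring (Fin q)) = Nat.card (H.Coloring (Fin q))) :
    Fintype.card V = Fintype.card W ∧ n2 G = n2 H ∧ n3 G = n3 H ∧ i4 G = i4 H ∧ f5 G = f5 H := by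
  have h' : ∀ q : ℕ, (cf G q).card = (cf H q).card := fun q => by
    rw [← card_coloring, ← card_coloring, h]
  obtain ⟨p, hp⟩ := goodPoly G
  obtain ⟨r, hr⟩ := goodPoly H
  have hpr : Fintype.card V = Fintype.card W ∧ p = r := by
    rcases le_total (Fintype.card V) (Fintype.card W) with hle | hle
    · exact good_compare hp hr h' hle
    · obtain ⟨h1, h2⟩ := good_compare hr hp (fun q => (h' q).symm) hle
      exact ⟨h1.symm, h2.symm⟩
  obtain ⟨hcard, rfl⟩ := hpr
  obtain ⟨-, -, p1, p2, p3, p4⟩ := hp
  obtain ⟨-, -, r1, r2, r3, r4⟩ := hr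
  have e2 : (n2 G : ℚ) = n2 H := by linarith
  have e3 : (n3 G : ℚ) = n3 H := by
    rw [e2] at p2
    linarith
  have e4 : (i4 G : ℚ) = i4 H := by
    rw [e2, e3, hG] at p3
    rw [hH] at r3
    linarith
  have p5 := p4 hG
  have r5 := r4 hH
  have e5 : (f5 G : ℚ) = f5 H := by
    rw [e2, e3, e4] at p5
    linarith
  exact ⟨hcard, by exact_mod_cast e2, by exact_mod_cast e3, by exact_mod_cast e4,
    by exact_mod_cast e5⟩

/-! ### conversions -/

/-- the clique indicator -/
lemma cl_eq (G : SimpleGraph V) (S : Finset V) [Decidable (G.IsClique (S : Set V))] :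
    cl G S = if G.IsClique (S : Set V) then 1 else 0 := by
  classical
  unfold cl
  refine ite_one ?_
  have hdg : ∀ v ∈ S, dg G S v = ((S.erase v).filter fun u => G.Adj v u).card := by
    intro v hv
    unfold dg
    rw [card_filter, ← add_sum_erase S _ hv, ad_self]
    simp only [Bool.toNat_false, zero_add]
    refine sum_congr rfl fun u _ => ?_
    by_cases h : G.Adj v u
    · rw [ad_true.2 h, if_pos h]; rfl
    · rw [if_neg h, (Bool.not_eq_true _).mp (fun h' => h (ad_true.1 h'))]; rfl
  constructor
  · intro h v hv u hu huv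
    have h1 := h v hv
    rw [hdg v hv] at h1
    have h2 : (S.erase v).card + 1 = S.card := card_erase_add_one hv
    have h3 : (S.erase v).filter (fun u => G.Adj v u) = S.erase v :=
      eq_of_subset_of_card_le (filter_subset _ _) (by omega)
    have h4 : u ∈ (S.erase v).filter (fun u => G.Adj v u) := by
      rw [h3]; exact mem_erase.2 ⟨huv.symm, hu⟩
    exact (mem_filter.1 h4).2
  · intro h v hv
    rw [hdg v hv, filter_true_of_mem, card_erase_add_one hv]
    intro u hu
    exact h hv (mem_of_mem_erase hu) (ne_of_mem_erase hu).symm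

lemma sum_cl_eq (G : SimpleGraph V) [DecidableRel G.Adj] (k : ℕ) :
    ∑ S ∈ powersetCard k (univ : Finset V), cl G S = ((G.cliqueFinset k).card : ℤ) := by
  classical
  have h1 : ∀ S ∈ powersetCard k (univ : Finset V),
      cl G S = if G.IsClique (S : Set V) then 1 else 0 := fun S _ => cl_eq G S
  rw [sum_congr rfl h1, ← Finset.sum_filter, Finset.sum_const, nsmul_eq_mul, mul_one]
  congr 2
  ext S
  rw [mem_filter, mem_powersetCard, SimpleGraph.mem_cliqueFinset_iff, SimpleGraph.isNClique_iff]
  constructor
  · rintro ⟨⟨-, h⟩, h'⟩; exact ⟨h', h⟩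
  · rintro ⟨h, h'⟩; exact ⟨⟨subset_univ _, h'⟩, h⟩

/-- `n3` is the number of triangles -/
lemma n3_eq (G : SimpleGraph V) [DecidableRel G.Adj] : n3 G = ((G.cliqueFinset 3).card : ℤ) :=
  sum_cl_eq G 3

/-- `n2` is the number of edges -/
lemma n2_eq (G : SimpleGraph V) [DecidableRel G.Adj] : n2 G = (G.edgeFinset.card : ℤ) := by
  classical
  unfold n2
  rw [sum_cl_eq G 2]
  congr 1
  symm
  refine card_bij (fun e _ => e.toFinset) ?_ ?_ ?_
  · intro e he
    induction e using Sym2.ind with
    | _ u v =>
      rw [SimpleGraph.mem_edgeFinset, SimpleGraph.mem_edgeSet] at he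
      rw [SimpleGraph.mem_cliqueFinset_iff, SimpleGraph.isNClique_iff]
      refine ⟨?_, ?_⟩
      · intro a ha b hb hab
        simp only [Finset.mem_coe, Sym2.mem_toFinset, Sym2.mem_iff] at ha hb
        rcases ha with rfl | rfl <;> rcases hb with rfl | rfl
        · exact absurd rfl hab
        · exact he
        · exact he.symm
        · exact absurd rfl hab
      · rw [Sym2.card_toFinset_of_not_isDiag]
        simpa using he.ne
  · intro e he f hf hef
    ext a
    rw [← Sym2.mem_toFinset, hef, Sym2.mem_toFinset]
  · intro S hS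
    rw [SimpleGraph.mem_cliqueFinset_iff, SimpleGraph.isNClique_iff] at hS
    obtain ⟨u, v, huv, rfl⟩ := card_eq_two.1 hS.2
    refine ⟨s(u, v), ?_, ?_⟩
    · rw [SimpleGraph.mem_edgeFinset, SimpleGraph.mem_edgeSet]
      exact hS.1 (by simp) (by simp) huv
    · ext a
      simp

/-- a graph with a proper colouring by three colours has no complete subgraph on four vertices -/
lemma n4_zero_of_cliqueFree {G : SimpleGraph V} (h : G.CliqueFree 4) : n4 G = 0 := by
  classical
  refine sum_eq_zero fun S hS => ?_
  rw [cl_eq, if_neg]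
  intro h'
  exact h S ⟨h', (mem_powersetCard.1 hS).2⟩

end K3h21.Chrom
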