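import Pool.Agent.K3h21.ChromLocal

/-!
# Deletion-contraction for the pattern counts

Numbers of edges, triangles, complete subgraphs on four vertices, induced 4-cycles, and the
five-vertex patterns, and how they change when an edge is deleted or contracted (the contraction is
a graph on the same vertex set in which one end of the edge becomes isolated).
-/

set_option autoImplicit false
set_option linter.unusedSectionVars false
set_option linter.unusedSimpArgs false

open Finset

namespace K3h21.Chrom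

variable {V : Type*} [Fintype V] [DecidableEq V]

/-! ### sums over sets of a given size -/

lemma sum_pc_insert {a : V} {s : Finset V} (ha : a ∉ s) (k : ℕ) (F : Finset V → ℤ) :
    ∑ S ∈ powersetCard (k + 1) (insert a s), F S
      = ∑ S ∈ powersetCard (k + 1) s, F S + ∑ S ∈ powersetCard k s, F (insert a S) := by
  rw [powersetCard_succ_insert ha, sum_union, sum_image]
  · intro S hS T hT h
    have h1 : a ∉ S := fun h' => ha ((mem_powersetCard.1 hS).1 h')
    have h2 : a ∉ T := fun h' => ha ((mem_powersetCard.1 hT).1 h')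
    have := congrArg (fun U => U.erase a) h
    simpa [erase_insert h1, erase_insert h2] using this
  · rw [disjoint_left]
    intro S hS hS'
    obtain ⟨T, hT, rfl⟩ := mem_image.1 hS'
    exact ha ((mem_powersetCard.1 hS).1 (mem_insert_self _ _))

/-- the vertices different from `x` and `y` -/
def oth (x y : V) : Finset V := (univ.erase x).erase y

lemma mem_oth {x y u : V} : u ∈ oth x y ↔ u ≠ x ∧ u ≠ y := by
  simp [oth, and_comm]

lemma univ_eq (x y : V) : (univ : Finset V) = insert x (insert y (oth x y)) := by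
  ext u
  simp only [mem_univ, mem_insert, mem_oth, true_iff]
  by_cases h1 : u = x
  · exact Or.inl h1
  · by_cases h2 : u = y
    · exact Or.inr (Or.inl h2)
    · exact Or.inr (Or.inr ⟨h1, h2⟩)

lemma split2 {x y : V} (h : x ≠ y) (k : ℕ) (F : Finset V → ℤ) :
    ∑ S ∈ powersetCard (k + 2) (univ : Finset V), F S
      = ∑ S ∈ powersetCard (k + 2) (oth x y), F S
        + ∑ S ∈ powersetCard (k + 1) (oth x y), F (insert y S)
        + ∑ S ∈ powersetCard (k + 1) (oth x y), F (insert x S)
        + ∑ S ∈ powersetCard k (oth x y), F (insert x (insert y S)) := by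
  have h1 : y ∉ oth x y := by simp [mem_oth]
  have h2 : x ∉ insert y (oth x y) := by simp [mem_oth, h]
  rw [univ_eq x y, show k + 2 = (k + 1) + 1 from rfl, sum_pc_insert h2, sum_pc_insert h1,
    sum_pc_insert h1]
  ring

/-! ### the graphs after deleting and contracting -/

/-- delete the edge `xy` -/
def del (G : SimpleGraph V) (x y : V) : SimpleGraph V where
  Adj u v := G.Adj u v ∧ ¬ (u = x ∧ v = y) ∧ ¬ (u = y ∧ v = x)
  symm := ⟨by
    intro u v ⟨h1, h2, h3⟩
    exact ⟨h1.symm, fun h => h3 ⟨h.2, h.1⟩, fun h => h2 ⟨h.2, h.1⟩⟩⟩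
  loopless := ⟨fun u h => G.loopless.irrefl u h.1⟩

/-- move the neighbours of `y` to `x` and isolate `y` -/
def con (G : SimpleGraph V) (x y : V) : SimpleGraph V where
  Adj u v := u ≠ v ∧ u ≠ y ∧ v ≠ y ∧ (G.Adj u v ∨ (u = x ∧ G.Adj y v) ∨ (v = x ∧ G.Adj y u))
  symm := ⟨by
    intro u v ⟨h1, h2, h3, h4⟩
    refine ⟨h1.symm, h3, h2, ?_⟩
    rcases h4 with h | h | h
    · exact Or.inl h.symm
    · exact Or.inr (Or.inr h)
    · exact Or.inr (Or.inl h)⟩
  loopless := ⟨fun u h => h.1 rfl⟩

variable (G : SimpleGraph V) {x y : V}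

lemma ad_congr {G H : SimpleGraph V} {u v u' v' : V} (h : G.Adj u v ↔ H.Adj u' v') :
    ad G u v = ad H u' v' := by
  rw [Bool.eq_iff_iff, ad_true, ad_true, h]

lemma ad_del_xy : ad (del G x y) x y = false := by
  have : ¬ (del G x y).Adj x y := fun h => h.2.1 ⟨rfl, rfl⟩
  simp only [ad, this, decide_false]

lemma ad_del_left {u : V} (v : V) (h1 : u ≠ x) (h2 : u ≠ y) : ad (del G x y) u v = ad G u v := by
  have : (del G x y).Adj u v ↔ G.Adj u v :=
    ⟨fun h => h.1, fun h => ⟨h, fun h' => h1 h'.1, fun h' => h2 h'.1⟩⟩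
  exact ad_congr this

lemma ad_del_right (u : V) {v : V} (h1 : v ≠ x) (h2 : v ≠ y) : ad (del G x y) u v = ad G u v := by
  have : (del G x y).Adj u v ↔ G.Adj u v :=
    ⟨fun h => h.1, fun h => ⟨h, fun h' => h2 h'.2, fun h' => h1 h'.2⟩⟩
  exact ad_congr this

lemma ad_con_y (u : V) : ad (con G x y) y u = false := by
  have : ¬ (con G x y).Adj y u := fun h => h.2.1 rfl
  simp only [ad, this, decide_false]

lemma ad_con_x {u : V} (h : x ≠ y) (h1 : u ≠ x) (h2 : u ≠ y) :
    ad (con G x y) x u = (ad G x u || ad G y u) := by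
  have : (con G x y).Adj x u ↔ G.Adj x u ∨ G.Adj y u := by
    constructor
    · rintro ⟨-, -, -, h | h | h⟩
      · exact Or.inl h
      · exact Or.inr h.2
      · exact absurd h.1 h1
    · intro h'
      refine ⟨h1.symm, h, h2, ?_⟩
      rcases h' with h' | h'
      · exact Or.inl h'
      · exact Or.inr (Or.inl ⟨rfl, h'⟩)
  rw [Bool.eq_iff_iff, Bool.or_eq_true, ad_true, ad_true, ad_true, this]

lemma ad_con_o {u v : V} (h1 : u ≠ x) (h2 : u ≠ y) (h3 : v ≠ x) (h4 : v ≠ y) :
    ad (con G x y) u v = ad G u v := by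
  have : (con G x y).Adj u v ↔ G.Adj u v := by
    constructor
    · rintro ⟨-, -, -, h | h | h⟩
      · exact h
      · exact absurd h.1 h1
      · exact absurd h.1 h3
    · intro h'
      exact ⟨h'.ne, h2, h4, Or.inl h'⟩
  exact ad_congr this

/-! ### locality -/

lemma ite_one {p q : Prop} {ip : Decidable p} {iq : Decidable q} (h : p ↔ q) :
    @ite ℤ p ip 1 0 = @ite ℤ q iq 1 0 := if_congr h rfl rfl

lemma dg_congr {G H : SimpleGraph V} {S : Finset V}
    (h : ∀ u ∈ S, ∀ v ∈ S, ad G u v = ad H u v) {v : V} (hv : v ∈ S) : dg G S v = dg H S v := by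
  unfold dg
  exact sum_congr rfl fun u hu => by rw [h v hv u hu]

lemma cl_congr {G H : SimpleGraph V} {S : Finset V}
    (h : ∀ u ∈ S, ∀ v ∈ S, ad G u v = ad H u v) : cl G S = cl H S := by
  unfold cl
  refine ite_one (forall₂_congr fun v hv => ?_)
  rw [dg_congr h hv]

lemma cyc_congr {G H : SimpleGraph V} {S : Finset V}
    (h : ∀ u ∈ S, ∀ v ∈ S, ad G u v = ad H u v) : cyc G S = cyc H S := by
  unfold cyc
  refine ite_one (forall₂_congr fun v hv => ?_)
  rw [dg_congr h hv]

lemma x4_congr {G H : SimpleGraph V} {S : Finset V}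
    (h : ∀ u ∈ S, ∀ v ∈ S, ad G u v = ad H u v) : x4 G S = x4 H S := by
  unfold x4
  rw [cyc_congr h]
  have h1 : k23 G S = k23 H S := by
    unfold k23
    refine ite_one ?_
    refine and_congr (by rw [sum_congr rfl fun v hv => dg_congr h hv]) ?_
    refine forall₂_congr fun v hv => ?_
    rw [dg_congr h hv]
    refine and_congr Iff.rfl (imp_congr Iff.rfl ?_)
    refine forall₂_congr fun u hu => ?_
    rw [dg_congr h hu, h v hv u hu]
  have h2 : wm G S = wm H S := by
    unfold wm
    refine ite_one ?_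
    refine and_congr (by rw [sum_congr rfl fun v hv => dg_congr h hv]) ?_
    refine forall₂_congr fun v hv => ?_
    rw [dg_congr h hv]
  have h3 : wh G S = wh H S := by
    unfold wh
    refine ite_one ?_
    refine and_congr (by rw [sum_congr rfl fun v hv => dg_congr h hv]) ?_
    refine forall₂_congr fun v hv => ?_
    rw [dg_congr h hv]
  rw [h1, h2, h3]

lemma cl_isolated {G : SimpleGraph V} {S : Finset V} {y : V} (hy : y ∈ S)
    (h : ∀ u, ad G y u = false) (hS : S.card ≠ 1) : cl G S = 0 := by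
  unfold cl
  rw [if_neg]
  intro h'
  have := h' y hy
  simp [dg, h] at this
  exact hS this.symm

lemma cyc_isolated {G : SimpleGraph V} {S : Finset V} {y : V} (hy : y ∈ S)
    (h : ∀ u, ad G y u = false) : cyc G S = 0 := by
  unfold cyc
  rw [if_neg]
  intro h'
  have := h' y hy
  simp [dg, h] at this

/-- sets not containing `y` are not affected by deleting `xy` -/
lemma del_agree_y {S : Finset V} (hS : S ⊆ oth x y) :
    ∀ u ∈ insert x S, ∀ v ∈ insert x S, ad (del G x y) u v = ad G u v := by
  intro u hu v hv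
  rcases mem_insert.1 hu with rfl | hu
  · rcases mem_insert.1 hv with rfl | hv
    · rw [ad_self, ad_self]
    · exact ad_del_right G _ (mem_oth.1 (hS hv)).1 (mem_oth.1 (hS hv)).2
  · exact ad_del_left G _ (mem_oth.1 (hS hu)).1 (mem_oth.1 (hS hu)).2

lemma del_agree_x {S : Finset V} (hS : S ⊆ oth x y) :
    ∀ u ∈ insert y S, ∀ v ∈ insert y S, ad (del G x y) u v = ad G u v := by
  intro u hu v hv
  rcases mem_insert.1 hu with rfl | hu
  · rcases mem_insert.1 hv with rfl | hv
    · rw [ad_self, ad_self]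
    · exact ad_del_right G _ (mem_oth.1 (hS hv)).1 (mem_oth.1 (hS hv)).2
  · exact ad_del_left G _ (mem_oth.1 (hS hu)).1 (mem_oth.1 (hS hu)).2

lemma del_agree_o {S : Finset V} (hS : S ⊆ oth x y) :
    ∀ u ∈ S, ∀ v ∈ S, ad (del G x y) u v = ad G u v := by
  intro u hu v hv
  exact ad_del_left G _ (mem_oth.1 (hS hu)).1 (mem_oth.1 (hS hu)).2

lemma con_agree_o {S : Finset V} (hS : S ⊆ oth x y) :
    ∀ u ∈ S, ∀ v ∈ S, ad (con G x y) u v = ad G u v := by
  intro u hu v hv
  exact ad_con_o G (mem_oth.1 (hS hu)).1 (mem_oth.1 (hS hu)).2 (mem_oth.1 (hS hv)).1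
    (mem_oth.1 (hS hv)).2

/-- a local functional changes under deletion only through the sets containing both ends -/
lemma sub_del {F : SimpleGraph V → Finset V → ℤ}
    (hF : ∀ (G H : SimpleGraph V) (S : Finset V), (∀ u ∈ S, ∀ v ∈ S, ad G u v = ad H u v) →
      F G S = F H S) (hxy : x ≠ y) (k : ℕ) :
    ∑ S ∈ powersetCard (k + 2) (univ : Finset V), F G S
      - ∑ S ∈ powersetCard (k + 2) (univ : Finset V), F (del G x y) S
      = ∑ S ∈ powersetCard k (oth x y),
          (F G (insert x (insert y S)) - F (del G x y) (insert x (insert y S))) := by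
  rw [split2 hxy, split2 hxy, sum_sub_distrib]
  have h1 : ∑ S ∈ powersetCard (k + 2) (oth x y), F (del G x y) S
      = ∑ S ∈ powersetCard (k + 2) (oth x y), F G S :=
    sum_congr rfl fun S hS => hF _ _ _ (del_agree_o G (mem_powersetCard.1 hS).1)
  have h2 : ∑ S ∈ powersetCard (k + 1) (oth x y), F (del G x y) (insert y S)
      = ∑ S ∈ powersetCard (k + 1) (oth x y), F G (insert y S) :=
    sum_congr rfl fun S hS => hF _ _ _ (del_agree_x G (mem_powersetCard.1 hS).1)
  have h3 : ∑ S ∈ powersetCard (k + 1) (oth x y), F (del G x y) (insert x S)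
      = ∑ S ∈ powersetCard (k + 1) (oth x y), F G (insert x S) :=
    sum_congr rfl fun S hS => hF _ _ _ (del_agree_y G (mem_powersetCard.1 hS).1)
  rw [h1, h2, h3]
  ring

/-- a local functional that vanishes on sets with an isolated vertex, under contraction -/
lemma sub_con {F : SimpleGraph V → Finset V → ℤ}
    (hF : ∀ (G H : SimpleGraph V) (S : Finset V), (∀ u ∈ S, ∀ v ∈ S, ad G u v = ad H u v) →
      F G S = F H S) (k : ℕ)
    (hF0 : ∀ (G : SimpleGraph V) (S : Finset V) (y : V), y ∈ S → (∀ u, ad G y u = false) →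
      S.card = k + 2 → F G S = 0) (hxy : x ≠ y) :
    ∑ S ∈ powersetCard (k + 2) (univ : Finset V), F G S
      - ∑ S ∈ powersetCard (k + 2) (univ : Finset V), F (con G x y) S
      = ∑ S ∈ powersetCard (k + 1) (oth x y),
          (F G (insert x S) + F G (insert y S) - F (con G x y) (insert x S))
        + ∑ S ∈ powersetCard k (oth x y), F G (insert x (insert y S)) := by
  rw [split2 hxy, split2 hxy, sum_sub_distrib, sum_add_distrib]
  have h1 : ∑ S ∈ powersetCard (k + 2) (oth x y), F (con G x y) S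
      = ∑ S ∈ powersetCard (k + 2) (oth x y), F G S :=
    sum_congr rfl fun S hS => hF _ _ _ (con_agree_o G (mem_powersetCard.1 hS).1)
  have hy : ∀ {S : Finset V}, S ⊆ oth x y → y ∉ S := fun hS h => (mem_oth.1 (hS h)).2 rfl
  have hx : ∀ {S : Finset V}, S ⊆ oth x y → x ∉ S := fun hS h => (mem_oth.1 (hS h)).1 rfl
  have h2 : ∑ S ∈ powersetCard (k + 1) (oth x y), F (con G x y) (insert y S) = 0 := by
    refine sum_eq_zero fun S hS => ?_
    have hS' := mem_powersetCard.1 hS
    refine hF0 _ _ y (mem_insert_self _ _) (fun u => ad_con_y G u) ?_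
    rw [card_insert_of_notMem (hy hS'.1), hS'.2]
  have h3 : ∑ S ∈ powersetCard k (oth x y), F (con G x y) (insert x (insert y S)) = 0 := by
    refine sum_eq_zero fun S hS => ?_
    have hS' := mem_powersetCard.1 hS
    refine hF0 _ _ y (by simp) (fun u => ad_con_y G u) ?_
    rw [card_insert_of_notMem, card_insert_of_notMem (hy hS'.1), hS'.2]
    simp [hxy, hx hS'.1]
  rw [h1, h2, h3]
  ring

end K3h21.Chrom
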