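import Pool.Agent.K3h21.ChromPoly
import Pool.Agent.K3h21.ChromConv

/-!
# The pattern counts of the complete tripartite graph `K_{1,n,m}`
-/

set_option autoImplicit false
set_option linter.unusedSectionVars false
set_option linter.unusedSimpArgs false

open Finset

namespace K3h21.Chrom

variable {V : Type*} [Fintype V] [DecidableEq V] {G : SimpleGraph V} {c : V → Fin 3}

/-- the size of the class `i` inside `S` -/
def sz (c : V → Fin 3) (S : Finset V) (i : Fin 3) : ℕ := (S.filter fun v => c v = i).card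

lemma sz_sum (S : Finset V) : sz c S 0 + sz c S 1 + sz c S 2 = S.card := by
  have := card_eq_sum_card_fiberwise (f := c) (s := S) (t := univ) (fun _ _ => mem_univ _)
  rw [this, Fin.sum_univ_three]
  rfl

lemma dg_add_sz (hc : ∀ u v, G.Adj u v ↔ c u ≠ c v) (S : Finset V) (v : V) :
    dg G S v + sz c S (c v) = S.card := by
  have h1 : dg G S v = (S.filter fun u => ¬ c u = c v).card := by
    unfold dg
    rw [card_filter]
    refine sum_congr rfl fun u _ => ?_
    by_cases h : c u = c v
    · have : ad G v u = false := by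
        rw [← Bool.not_eq_true, ad_true, hc]
        exact fun h' => h' h.symm
      rw [this, if_neg (fun h' => h' h)]
      rfl
    · have : ad G v u = true := by
        rw [ad_true, hc]
        exact fun h' => h h'.symm
      rw [this, if_pos h]
      rfl
  rw [h1, sz, add_comm, card_filter_add_card_filter_not]

lemma sz_pos_of_mem {S : Finset V} {v : V} (hv : v ∈ S) : sz c S (c v) ≠ 0 := by
  unfold sz
  rw [card_ne_zero]
  exact ⟨v, mem_filter.2 ⟨hv, rfl⟩⟩

lemma forall_dg (hc : ∀ u v, G.Adj u v ↔ c u ≠ c v) (S : Finset V) (P : ℕ → Prop) :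
    (∀ v ∈ S, P (dg G S v)) ↔ ∀ i, sz c S i ≠ 0 → P (S.card - sz c S i) := by
  have h1 : ∀ v, dg G S v = S.card - sz c S (c v) := fun v => by
    have := dg_add_sz hc S v
    omega
  constructor
  · intro h i hi
    obtain ⟨v, hv⟩ := card_ne_zero.1 hi
    obtain ⟨hv', rfl⟩ := mem_filter.1 hv
    rw [← h1]
    exact h v hv'
  · intro h v hv
    rw [h1]
    exact h _ (sz_pos_of_mem hv)

lemma sum_dg (hc : ∀ u v, G.Adj u v ↔ c u ≠ c v) (S : Finset V) :
    ∑ v ∈ S, dg G S v = sz c S 0 * (S.card - sz c S 0) + sz c S 1 * (S.card - sz c S 1)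
      + sz c S 2 * (S.card - sz c S 2) := by
  have h1 : ∀ v ∈ S, dg G S v = S.card - sz c S (c v) := fun v _ => by
    have := dg_add_sz hc S v
    omega
  rw [sum_congr rfl h1, ← sum_fiberwise_of_maps_to (g := c) (t := univ) (fun _ _ => mem_univ _),
    Fin.sum_univ_three]
  have h2 : ∀ i : Fin 3, ∑ v ∈ S.filter (fun v => c v = i), (S.card - sz c S (c v))
      = sz c S i * (S.card - sz c S i) := by
    intro i
    rw [sum_congr rfl (g := fun _ => S.card - sz c S i)
      (fun v hv => by rw [(mem_filter.1 hv).2]), sum_const, smul_eq_mul]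
    rfl
  rw [h2, h2, h2]

/-- number of sets with prescribed class sizes -/
lemma count_sz (c : V → Fin 3) (i j k : ℕ) :
    ((univ : Finset (Finset V)).filter fun S => sz c S 0 = i ∧ sz c S 1 = j ∧ sz c S 2 = k).card
      = (sz c univ 0).choose i * (sz c univ 1).choose j * (sz c univ 2).choose k := by
  unfold sz
  rw [← card_powersetCard, ← card_powersetCard, ← card_powersetCard, ← card_product,
    ← card_product]
  have hf : ∀ (A B C : Finset V), A ⊆ univ.filter (fun v => c v = 0) →
      B ⊆ univ.filter (fun v => c v = 1) → C ⊆ univ.filter (fun v => c v = 2) →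
      (A ∪ B ∪ C).filter (fun v => c v = 0) = A ∧ (A ∪ B ∪ C).filter (fun v => c v = 1) = B ∧
      (A ∪ B ∪ C).filter (fun v => c v = 2) = C := by
    intro A B C hA hB hC
    refine ⟨?_, ?_, ?_⟩
    · ext v
      simp only [mem_filter, mem_union]
      constructor
      · rintro ⟨(h | h) | h, h'⟩
        · exact h
        · have := (mem_filter.1 (hB h)).2; rw [h'] at this; exact absurd this (by decide)
        · have := (mem_filter.1 (hC h)).2; rw [h'] at this; exact absurd this (by decide)
      · intro h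
        exact ⟨Or.inl (Or.inl h), (mem_filter.1 (hA h)).2⟩
    · ext v
      simp only [mem_filter, mem_union]
      constructor
      · rintro ⟨(h | h) | h, h'⟩
        · have := (mem_filter.1 (hA h)).2; rw [h'] at this; exact absurd this (by decide)
        · exact h
        · have := (mem_filter.1 (hC h)).2; rw [h'] at this; exact absurd this (by decide)
      · intro h
        exact ⟨Or.inl (Or.inr h), (mem_filter.1 (hB h)).2⟩
    · ext v
      simp only [mem_filter, mem_union]
      constructor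
      · rintro ⟨(h | h) | h, h'⟩
        · have := (mem_filter.1 (hA h)).2; rw [h'] at this; exact absurd this (by decide)
        · have := (mem_filter.1 (hB h)).2; rw [h'] at this; exact absurd this (by decide)
        · exact h
      · intro h
        exact ⟨Or.inr h, (mem_filter.1 (hC h)).2⟩
  refine card_bij' (fun S _ => ((S.filter (fun v => c v = 0), S.filter (fun v => c v = 1)),
      S.filter (fun v => c v = 2)))
    (fun p _ => p.1.1 ∪ p.1.2 ∪ p.2) ?_ ?_ ?_ ?_
  · intro S hS
    obtain ⟨-, h0, h1, h2⟩ := mem_filter.1 hS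
    simp only [mem_product, mem_powersetCard]
    exact ⟨⟨⟨filter_subset_filter _ (subset_univ _), h0⟩,
      ⟨filter_subset_filter _ (subset_univ _), h1⟩⟩,
      ⟨filter_subset_filter _ (subset_univ _), h2⟩⟩
  · rintro ⟨⟨A, B⟩, C⟩ hp
    simp only [mem_product, mem_powersetCard] at hp
    obtain ⟨⟨⟨hA, hA'⟩, hB, hB'⟩, hC, hC'⟩ := hp
    obtain ⟨e0, e1, e2⟩ := hf A B C hA hB hC
    simp only [mem_filter, mem_univ, true_and]
    rw [e0, e1, e2]
    exact ⟨hA', hB', hC'⟩
  · intro S _
    ext v
    simp only [mem_union, mem_filter]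
    have : c v = 0 ∨ c v = 1 ∨ c v = 2 := by
      generalize c v = a
      revert a
      decide
    constructor
    · rintro ((h | h) | h) <;> exact h.1
    · intro h
      rcases this with h' | h' | h'
      · exact Or.inl (Or.inl ⟨h, h'⟩)
      · exact Or.inl (Or.inr ⟨h, h'⟩)
      · exact Or.inr ⟨h, h'⟩
  · rintro ⟨⟨A, B⟩, C⟩ hp
    simp only [mem_product, mem_powersetCard] at hp
    obtain ⟨⟨⟨hA, hA'⟩, hB, hB'⟩, hC, hC'⟩ := hp
    obtain ⟨e0, e1, e2⟩ := hf A B C hA hB hC
    simp only [e0, e1, e2]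

/-- the sum of an indicator of the class sizes over the sets of size `i + j + k` -/
lemma sum_sz (c : V → Fin 3) {l : ℕ} (i j k : ℕ) (h : i + j + k = l) :
    ∑ S ∈ powersetCard l (univ : Finset V),
      (if sz c S 0 = i ∧ sz c S 1 = j ∧ sz c S 2 = k then (1 : ℤ) else 0)
      = (((sz c univ 0).choose i * (sz c univ 1).choose j * (sz c univ 2).choose k : ℕ) : ℤ) := by
  rw [← count_sz, ← Finset.sum_filter, Finset.sum_const, nsmul_eq_mul, mul_one]
  congr 2
  ext S
  simp only [mem_filter, mem_powersetCard, mem_univ, true_and, subset_univ]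
  constructor
  · rintro ⟨-, h'⟩; exact h'
  · intro h'
    refine ⟨?_, h'⟩
    rw [← sz_sum (c := c) S, h'.1, h'.2.1, h'.2.2, h]

lemma sz_le_univ (c : V → Fin 3) (S : Finset V) (i : Fin 3) : sz c S i ≤ sz c univ i :=
  card_le_card (filter_subset_filter _ (subset_univ _))

lemma forall_fin3 (P : Fin 3 → Prop) : (∀ i, P i) ↔ P 0 ∧ P 1 ∧ P 2 := by
  constructor
  · intro h; exact ⟨h 0, h 1, h 2⟩
  · rintro ⟨h0, h1, h2⟩ i
    fin_cases i
    · exact h0
    · exact h1
    · exact h2

/-- the number of edges -/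
lemma n2_tri (hc : ∀ u v, G.Adj u v ↔ c u ≠ c v) (h0 : sz c univ 0 = 1) :
    n2 G = (sz c univ 1 : ℤ) + sz c univ 2 + sz c univ 1 * sz c univ 2 := by
  have h : ∀ S ∈ powersetCard 2 (univ : Finset V), cl G S
      = (if sz c S 0 = 1 ∧ sz c S 1 = 1 ∧ sz c S 2 = 0 then (1 : ℤ) else 0)
        + (if sz c S 0 = 1 ∧ sz c S 1 = 0 ∧ sz c S 2 = 1 then (1 : ℤ) else 0)
        + (if sz c S 0 = 0 ∧ sz c S 1 = 1 ∧ sz c S 2 = 1 then (1 : ℤ) else 0) := by
    intro S hS
    have h1 := (mem_powersetCard.1 hS).2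
    have h2 := sz_sum (c := c) S
    have h3 := sz_le_univ c S 0
    rw [h0] at h3
    rw [h1] at h2
    unfold cl
    have := (forall_dg hc S (fun d => d + 1 = S.card))
    rw [forall_fin3, h1] at this
    rw [h1]
    simp only [this]
    generalize sz c S 0 = a at *
    generalize sz c S 1 = b at *
    generalize sz c S 2 = d at *
    have ha : a = 0 ∨ a = 1 := by omega
    have hb : b = 0 ∨ b = 1 ∨ b = 2 := by omega
    have hd : d = 2 - a - b := by omega
    rcases ha with rfl | rfl <;> rcases hb with rfl | rfl | rfl <;> simp at hd <;> subst hd <;>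
      simp at h2 ⊢
  rw [n2, sum_congr rfl h, sum_add_distrib, sum_add_distrib, sum_sz c 1 1 0 rfl,
    sum_sz c 1 0 1 rfl, sum_sz c 0 1 1 rfl, h0]
  push_cast
  simp

/-- the number of triangles -/
lemma n3_tri (hc : ∀ u v, G.Adj u v ↔ c u ≠ c v) (h0 : sz c univ 0 = 1) :
    n3 G = (sz c univ 1 : ℤ) * sz c univ 2 := by
  have h : ∀ S ∈ powersetCard 3 (univ : Finset V), cl G S
      = (if sz c S 0 = 1 ∧ sz c S 1 = 1 ∧ sz c S 2 = 1 then (1 : ℤ) else 0) := by
    intro S hS
    have h1 := (mem_powersetCard.1 hS).2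
    have h2 := sz_sum (c := c) S
    have h3 := sz_le_univ c S 0
    rw [h0] at h3
    rw [h1] at h2
    unfold cl
    have := (forall_dg hc S (fun d => d + 1 = S.card))
    rw [forall_fin3, h1] at this
    rw [h1]
    simp only [this]
    generalize sz c S 0 = a at *
    generalize sz c S 1 = b at *
    generalize sz c S 2 = d at *
    have ha : a = 0 ∨ a = 1 := by omega
    have hb : b = 0 ∨ b = 1 ∨ b = 2 ∨ b = 3 := by omega
    have hd : d = 3 - a - b := by omega
    rcases ha with rfl | rfl <;> rcases hb with rfl | rfl | rfl | rfl <;> simp at hd <;>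
      subst hd <;> simp at h2 ⊢
  rw [n3, sum_congr rfl h, sum_sz c 1 1 1 rfl, h0]
  push_cast
  simp

/-- no complete subgraph on four vertices -/
lemma n4_tri (hc : ∀ u v, G.Adj u v ↔ c u ≠ c v) : n4 G = 0 := by
  refine sum_eq_zero fun S hS => ?_
  have h1 := (mem_powersetCard.1 hS).2
  have h2 := sz_sum (c := c) S
  rw [h1] at h2
  unfold cl
  have := (forall_dg hc S (fun d => d + 1 = S.card))
  rw [forall_fin3, h1] at this
  rw [h1]
  simp only [this]
  rw [if_neg]
  rintro ⟨k0, k1, k2⟩
  generalize sz c S 0 = a at *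
  generalize sz c S 1 = b at *
  generalize sz c S 2 = d at *
  have ha : a = 0 ∨ a = 1 := by
    by_cases h : a = 0
    · exact Or.inl h
    · have := k0 h; omega
  have hb : b = 0 ∨ b = 1 := by
    by_cases h : b = 0
    · exact Or.inl h
    · have := k1 h; omega
  have hd : d = 0 ∨ d = 1 := by
    by_cases h : d = 0
    · exact Or.inl h
    · have := k2 h; omega
  omega

/-- the number of induced 4-cycles -/
lemma i4_tri (hc : ∀ u v, G.Adj u v ↔ c u ≠ c v) (h0 : sz c univ 0 = 1) :
    i4 G = (((sz c univ 1).choose 2 * (sz c univ 2).choose 2 : ℕ) : ℤ) := by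
  have h : ∀ S ∈ powersetCard 4 (univ : Finset V), cyc G S
      = (if sz c S 0 = 0 ∧ sz c S 1 = 2 ∧ sz c S 2 = 2 then (1 : ℤ) else 0) := by
    intro S hS
    have h1 := (mem_powersetCard.1 hS).2
    have h2 := sz_sum (c := c) S
    have h3 := sz_le_univ c S 0
    rw [h0] at h3
    rw [h1] at h2
    unfold cyc
    have := (forall_dg hc S (fun d => d = 2))
    rw [forall_fin3, h1] at this
    simp only [this]
    generalize sz c S 0 = a at *
    generalize sz c S 1 = b at *
    generalize sz c S 2 = d at *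
    have ha : a = 0 ∨ a = 1 := by omega
    have hb : b = 0 ∨ b = 1 ∨ b = 2 ∨ b = 3 ∨ b = 4 := by omega
    have hd : d = 4 - a - b := by omega
    rcases ha with rfl | rfl <;> rcases hb with rfl | rfl | rfl | rfl | rfl <;> simp at hd <;>
      subst hd <;> simp at h2 ⊢
  rw [i4, sum_congr rfl h, sum_sz c 0 2 2 rfl, h0]
  push_cast
  simp

/-- the combination of five-vertex patterns -/
lemma f5_tri (hc : ∀ u v, G.Adj u v ↔ c u ≠ c v) (h0 : sz c univ 0 = 1) :
    f5 G = (((sz c univ 1).choose 2 * (sz c univ 2).choose 3 : ℕ) : ℤ)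
      + (((sz c univ 1).choose 3 * (sz c univ 2).choose 2 : ℕ) : ℤ)
      + 3 * (((sz c univ 1).choose 2 * (sz c univ 2).choose 2 : ℕ) : ℤ) := by
  have h : ∀ S ∈ powersetCard 5 (univ : Finset V), x4 G S
      = (if sz c S 0 = 0 ∧ sz c S 1 = 2 ∧ sz c S 2 = 3 then (1 : ℤ) else 0)
        + (if sz c S 0 = 0 ∧ sz c S 1 = 3 ∧ sz c S 2 = 2 then (1 : ℤ) else 0)
        + 3 * (if sz c S 0 = 1 ∧ sz c S 1 = 2 ∧ sz c S 2 = 2 then (1 : ℤ) else 0) := by
    intro S hS
    have h1 := (mem_powersetCard.1 hS).2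
    have h2 := sz_sum (c := c) S
    have h3 := sz_le_univ c S 0
    rw [h0] at h3
    rw [h1] at h2
    have hsum := sum_dg hc S
    have f1 := (forall_dg hc S (fun d => d = 2))
    have f2 := (forall_dg hc S (fun d => d = 2 ∨ d = 3))
    have f3 := (forall_dg hc S (fun d => d = 3 ∨ d = 4))
    rw [forall_fin3, h1] at f1 f2 f3
    rw [h1] at hsum
    have hk : k23 G S = if (∑ v ∈ S, dg G S v = 12 ∧ ∀ v ∈ S, (dg G S v = 2 ∨ dg G S v = 3))
        then 1 else 0 := by
      unfold k23
      refine ite_one ?_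
      constructor
      · rintro ⟨k1, k2⟩
        exact ⟨k1, fun v hv => (k2 v hv).1⟩
      · rintro ⟨k1, k2⟩
        refine ⟨k1, fun v hv => ⟨k2 v hv, fun hv3 u hu hu3 => ?_⟩⟩
        rw [← Bool.not_eq_true, ad_true, hc, not_not]
        have e1 := dg_add_sz hc S v
        have e2 := dg_add_sz hc S u
        rw [h1, hv3] at e1
        rw [h1, hu3] at e2
        have e1' : sz c S (c v) = 2 := by omega
        have e2' : sz c S (c u) = 2 := by omega
        rw [hsum] at k1
        by_contra hne
        generalize c v = i at *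
        generalize c u = j at *
        generalize hA : sz c S 0 = a at *
        generalize hB : sz c S 1 = b at *
        generalize hD : sz c S 2 = d at *
        have ha : a = 0 ∨ a = 1 := by omega
        have hb : b = 0 ∨ b = 1 ∨ b = 2 ∨ b = 3 ∨ b = 4 ∨ b = 5 := by omega
        have hd : d = 5 - a - b := by omega
        fin_cases i <;> fin_cases j <;>
          simp only [Fin.zero_eta, Fin.mk_one, Fin.reduceFinMk, hA, hB, hD, not_true_eq_false]
            at hne e1' e2' <;>
          rcases ha with rfl | rfl <;> rcases hb with rfl | rfl | rfl | rfl | rfl | rfl <;>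
          simp at hd <;> subst hd <;> simp at *
    unfold x4
    rw [hk]
    unfold wm wh cyc
    simp only [f1, f2, f3, hsum]
    generalize sz c S 0 = a at *
    generalize sz c S 1 = b at *
    generalize sz c S 2 = d at *
    have ha : a = 0 ∨ a = 1 := by omega
    have hb : b = 0 ∨ b = 1 ∨ b = 2 ∨ b = 3 ∨ b = 4 ∨ b = 5 := by omega
    have hd : d = 5 - a - b := by omega
    clear f1 f2 f3 hsum hk
    rcases ha with rfl | rfl <;> rcases hb with rfl | rfl | rfl | rfl | rfl | rfl <;>
      simp at hd <;> subst hd <;> simp at h2 ⊢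
  rw [f5, sum_congr rfl h, sum_add_distrib, sum_add_distrib, ← mul_sum, sum_sz c 0 2 3 rfl,
    sum_sz c 0 3 2 rfl, sum_sz c 1 2 2 rfl, h0]
  push_cast
  simp

/-! ### the complete tripartite graph of the frozen statement -/

open SimpleGraph

lemma sz_ktri (n m : ℕ) (i : Fin 3) :
    sz (Sigma.fst : (Σ i : Fin 3, Fin ((![1, n, m] : Fin 3 → ℕ) i)) → Fin 3) univ i
      = (![1, n, m] : Fin 3 → ℕ) i := by
  unfold sz
  have h : (univ.filter fun v : (Σ i : Fin 3, Fin ((![1, n, m] : Fin 3 → ℕ) i)) => v.1 = i)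
      = (univ : Finset (Fin ((![1, n, m] : Fin 3 → ℕ) i))).map
        (Function.Embedding.sigmaMk i) := by
    ext ⟨j, x⟩
    simp only [mem_filter, mem_univ, true_and, mem_map, Function.Embedding.sigmaMk_apply]
    constructor
    · rintro rfl
      exact ⟨x, rfl⟩
    · rintro ⟨y, hy⟩
      exact (congrArg Sigma.fst hy).symm
  rw [h, card_map, card_univ, Fintype.card_fin]

lemma ktri_adj (n m : ℕ) (u v : Σ i : Fin 3, Fin ((![1, n, m] : Fin 3 → ℕ) i)) :
    (Conv.ktri n m).Adj u v ↔ u.1 ≠ v.1 := Iff.rfl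

lemma ktri_colorable (n m : ℕ) : (Conv.ktri n m).Colorable 3 :=
  ⟨Coloring.mk (fun v => v.1) fun {_ _} h => h⟩

/-- a graph with as many `q`-colourings as `K_{1,n,m}` for all `q` is 3-colourable -/
lemma colorable_of_eq {V : Type} [Finite V] {G : SimpleGraph V} {n m : ℕ}
    (h : ∀ q : ℕ, Nat.card (G.Coloring (Fin q)) = Nat.card ((Conv.ktri n m).Coloring (Fin q))) :
    G.Colorable 3 := by
  obtain ⟨f⟩ := ktri_colorable n m
  have h3 : 0 < Nat.card ((Conv.ktri n m).Coloring (Fin 3)) := Nat.card_pos_iff.2 ⟨⟨f⟩, inferInstance⟩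
  rw [← h 3] at h3
  exact (Nat.card_pos_iff.1 h3).1

/-- the numbers of vertices, edges, triangles, induced 4-cycles and the combination of 5-vertex
patterns of a graph that is chromatically equivalent to `K_{1,n,m}` -/
theorem counts_of_chrom_eq {V : Type} [Fintype V] [DecidableEq V] {G : SimpleGraph V} {n m : ℕ}
    (h : ∀ q : ℕ, Nat.card (G.Coloring (Fin q)) = Nat.card ((Conv.ktri n m).Coloring (Fin q))) :
    G.Colorable 3 ∧ n4 G = 0 ∧ Fintype.card V = n + m + 1 ∧ n2 G = (n : ℤ) + m + n * m ∧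
    n3 G = (n : ℤ) * m ∧ i4 G = ((n.choose 2 * m.choose 2 : ℕ) : ℤ) ∧
    f5 G = ((n.choose 2 * m.choose 3 : ℕ) : ℤ) + ((n.choose 3 * m.choose 2 : ℕ) : ℤ)
      + 3 * ((n.choose 2 * m.choose 2 : ℕ) : ℤ) := by
  have hcol := colorable_of_eq h
  have h4 : n4 G = 0 := n4_zero_of_cliqueFree (hcol.cliqueFree (by norm_num))
  have hc := ktri_adj n m
  have h0 := sz_ktri n m 0
  have h1 := sz_ktri n m 1
  have h2 := sz_ktri n m 2
  simp only [Matrix.cons_val_zero, Matrix.cons_val_one, Matrix.cons_val_two, Matrix.head_cons,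
    Matrix.tail_cons, Matrix.cons_val] at h0 h1 h2
  obtain ⟨e1, e2, e3, e4, e5⟩ := chrom_counts_eq h4 (n4_tri hc) h
  refine ⟨hcol, h4, ?_, ?_, ?_, ?_, ?_⟩
  · rw [e1, Fintype.card_sigma, Fin.sum_univ_three, Fintype.card_fin, Fintype.card_fin,
      Fintype.card_fin]
    simp only [Matrix.cons_val_zero, Matrix.cons_val_one, Matrix.cons_val_two, Matrix.head_cons,
      Matrix.tail_cons, Matrix.cons_val]
    ring
  · rw [e2, n2_tri hc h0, h1, h2]
  · rw [e3, n3_tri hc h0, h1, h2]
  · rw [e4, i4_tri hc h0, h1, h2]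
  · rw [e5, f5_tri hc h0, h1, h2]

end K3h21.Chrom
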