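import Pool.Agent.K3h21.ChromTri

/-!
# Unique 3-colourability

`card_three_ktri`: the graph `K_{1,n,m}` has six proper 3-colourings.  `connected_pair`: in a graph
with exactly six proper 3-colourings any two colour classes induce a connected graph.
-/

set_option autoImplicit false

open SimpleGraph

namespace K3h21.Chrom

lemma swap_mem {i j a : Fin 3} (h : a = i ∨ a = j) : Equiv.swap i j a = i ∨ Equiv.swap i j a = j := by
  rcases h with rfl | rfl
  · right; exact Equiv.swap_apply_left _ _
  · left; exact Equiv.swap_apply_right _ _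

open Classical in
/-- with exactly six proper 3-colourings every 3-colouring is a permutation of a surjective one -/
lemma exists_perm {V : Type} [Finite V] {G : SimpleGraph V}
    (h6 : Nat.card (G.Coloring (Fin 3)) = 6) (c : G.Coloring (Fin 3))
    (hs : Function.Surjective c) (d : G.Coloring (Fin 3)) :
    ∃ σ : Equiv.Perm (Fin 3), ∀ v, d v = σ (c v) := by
  let Φ : Equiv.Perm (Fin 3) → G.Coloring (Fin 3) := fun σ =>
    Coloring.mk (fun v => σ (c v)) fun {u v} h => fun h' => c.valid h (σ.injective h')
  have hinj : Function.Injective Φ := by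
    intro σ τ h
    ext x
    obtain ⟨v, rfl⟩ := hs x
    have := congrArg (fun f : G.Coloring (Fin 3) => f v) h
    exact congrArg Fin.val this
  have hcard : Nat.card (G.Coloring (Fin 3)) ≤ Nat.card (Equiv.Perm (Fin 3)) := by
    rw [h6, Nat.card_eq_fintype_card, Fintype.card_perm, Fintype.card_fin]
    decide
  obtain ⟨σ, hσ⟩ := (hinj.bijective_of_nat_card_le hcard).2 d
  exact ⟨σ, fun v => by rw [← hσ]; rfl⟩

open Classical in
/-- in a graph with exactly six proper 3-colourings two colour classes induce a connected graph -/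
theorem connected_pair {V : Type} [Finite V] {G : SimpleGraph V}
    (h6 : Nat.card (G.Coloring (Fin 3)) = 6) (c : G.Coloring (Fin 3))
    (hs : Function.Surjective c) {i j : Fin 3} (hij : i ≠ j) :
    (G.induce {v | c v = i ∨ c v = j}).Connected := by
  obtain ⟨v0, hv0⟩ := hs i
  refine (connected_iff _).2 ⟨?_, ⟨⟨v0, Or.inl hv0⟩⟩⟩
  rintro ⟨u, hu⟩ ⟨w, hw⟩
  by_contra hnr
  let D : Set V := {x | ∃ h : x ∈ {v | c v = i ∨ c v = j},
    (G.induce {v | c v = i ∨ c v = j}).Reachable ⟨u, hu⟩ ⟨x, h⟩}
  have hD : ∀ a b, G.Adj a b → a ∈ D → b ∉ D → ¬ (c b = i ∨ c b = j) := by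
    intro a b hab ha hb hb'
    obtain ⟨ha1, ha2⟩ := ha
    refine hb ⟨hb', ha2.trans (Adj.reachable ?_)⟩
    exact hab
  let d : G.Coloring (Fin 3) := Coloring.mk
    (fun x => if x ∈ D then Equiv.swap i j (c x) else c x) (by
      intro a b hab
      have hcab := c.valid hab
      by_cases ha : a ∈ D <;> by_cases hb : b ∈ D
      · rw [if_pos ha, if_pos hb]
        exact fun h => hcab ((Equiv.swap i j).injective h)
      · rw [if_pos ha, if_neg hb]
        intro h
        refine hD a b hab ha hb ?_
        rw [← h]
        exact swap_mem ha.1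
      · rw [if_neg ha, if_pos hb]
        intro h
        refine hD b a hab.symm hb ha ?_
        rw [h]
        exact swap_mem hb.1
      · rw [if_neg ha, if_neg hb]
        exact hcab)
  obtain ⟨σ, hσ⟩ := exists_perm h6 c hs d
  have huD : u ∈ D := ⟨hu, Reachable.refl _⟩
  have hwD : w ∉ D := fun h => hnr h.2
  have h1 : Equiv.swap i j (c u) = σ (c u) := by
    rw [← hσ]; exact (if_pos huD).symm
  have h2 : c w = σ (c w) := by
    rw [← hσ]; exact (if_neg hwD).symm
  rcases hu with hu | hu <;> rcases hw with hw | hw <;>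
    simp only [hu, hw, Equiv.swap_apply_left, Equiv.swap_apply_right] at h1 h2
  · exact hij (h2.trans h1.symm)
  · exact hij (σ.injective (h1.symm.trans h2))
  · exact hij (σ.injective (h2.symm.trans h1))
  · exact hij (h1.trans h2.symm)

/-- number of proper 3-colourings of `K_{1,n,m}` -/
theorem card_three_ktri {n m : ℕ} (hn : 1 ≤ n) (hm : 1 ≤ m) :
    Nat.card ((Conv.ktri n m).Coloring (Fin 3)) = 6 := by
  have hpos : ∀ i : Fin 3, 0 < (![1, n, m] : Fin 3 → ℕ) i := by
    intro i
    fin_cases i
    · exact Nat.one_pos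
    · exact hn
    · exact hm
  let r : (i : Fin 3) → (Σ i : Fin 3, Fin ((![1, n, m] : Fin 3 → ℕ) i)) := fun i => ⟨i, ⟨0, hpos i⟩⟩
  let Φ : Equiv.Perm (Fin 3) → (Conv.ktri n m).Coloring (Fin 3) := fun σ =>
    Coloring.mk (fun v => σ v.1) fun {u v} h => fun h' => h (σ.injective h')
  have hbij : Function.Bijective Φ := by
    constructor
    · intro σ τ h
      ext x
      have := congrArg (fun f : (Conv.ktri n m).Coloring (Fin 3) => f (r x)) h
      exact congrArg Fin.val this
    · intro d
      have hinj : Function.Injective (fun i => d (r i)) := by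
        intro i j hij
        by_contra hne
        exact d.valid (show (Conv.ktri n m).Adj (r i) (r j) from hne) hij
      refine ⟨Equiv.ofBijective _ (Finite.injective_iff_bijective.1 hinj), ?_⟩
      ext v
      obtain ⟨j, hj⟩ := (Finite.injective_iff_bijective.1 hinj).2 (d v)
      have hj' : j = v.1 := by
        by_contra hne
        exact d.valid (show (Conv.ktri n m).Adj (r j) v from hne) hj
      have : d (r v.1) = d v := by rw [← hj', ← hj]
      exact congrArg Fin.val this
  rw [← Nat.card_eq_of_bijective Φ hbij, Nat.card_eq_fintype_card, Fintype.card_perm,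
    Fintype.card_fin]
  rfl

/-- a graph with as many colourings as `K_{1,n,m}` has a surjective 3-colouring all of whose pairs
of classes induce connected graphs -/
theorem pairs_of_chrom_eq {V : Type} [Fintype V] {G : SimpleGraph V} {n m : ℕ} (hn : 1 ≤ n)
    (hm : 1 ≤ m)
    (h : ∀ q : ℕ, Nat.card (G.Coloring (Fin q)) = Nat.card ((Conv.ktri n m).Coloring (Fin q))) :
    ∃ c : G.Coloring (Fin 3), Function.Surjective c ∧
      ∀ i j : Fin 3, i ≠ j → (G.induce {v | c v = i ∨ c v = j}).Connected := by
  classical
  obtain ⟨⟨c⟩, h4, hcard, -, h3, -, -⟩ := counts_of_chrom_eq h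
  have hne : n3 G ≠ 0 := by
    rw [h3]
    positivity
  rw [n3_eq] at hne
  have hne' : (G.cliqueFinset 3).card ≠ 0 := fun h => hne (by rw [h]; rfl)
  obtain ⟨S, hS⟩ := Finset.card_ne_zero.1 hne'
  rw [SimpleGraph.mem_cliqueFinset_iff, SimpleGraph.isNClique_iff] at hS
  have hs : Function.Surjective c := by
    have hinj : Set.InjOn c (S : Set V) := by
      intro a ha b hb hab
      by_contra hne
      exact c.valid (hS.1 ha hb hne) hab
    have himg : (S.image c).card = 3 := by
      rw [Finset.card_image_of_injOn hinj, hS.2]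
    have huniv : S.image c = Finset.univ := by
      rw [← Finset.card_eq_iff_eq_univ, himg, Fintype.card_fin]
    intro i
    have : i ∈ S.image c := by rw [huniv]; exact Finset.mem_univ _
    obtain ⟨v, -, hv⟩ := Finset.mem_image.1 this
    exact ⟨v, hv⟩
  refine ⟨c, hs, fun i j hij => connected_pair ?_ c hs hij⟩
  rw [h 3, card_three_ktri hn hm]

end K3h21.Chrom
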